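import Pool.Agent.Helper50.ND.NABS

/-!
# Project TH (MP_fc6b1e_nt), packet CLA, part 1: analytic lemmas on weighted sums
-/

set_option autoImplicit false

namespace Pool.Agent.Helper23.TH

open Pool.Agent.Helper11.PP (Slow)
open Pool.Agent.Helper44.PP.Dabs (slow_one slow_pow)
open Pool.Agent.Helper50.ND (ncard_sig)

/-- the statement of T_CLW -/
def CLW : Prop :=
  ∀ (β : Type) (n : β → ℕ) (A : Set β) (G : Finset β) (X : ℝ), 0 < X →
    (∀ Y : ℝ, {b | b ∈ A ∧ (n b : ℝ) ≤ Y}.Finite) → (∀ b ∈ G, b ∈ A) →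
  ∃ M₀ : ℕ, ∀ M, M₀ ≤ M → ∑ b ∈ G, Real.exp (-(n b / X)) ≤
    ∑ k ∈ Finset.range M, Real.exp (-(k : ℝ)) *
      ({b | b ∈ A ∧ (n b : ℝ) ≤ ((k : ℝ) + 1) * X}.ncard : ℝ)

/-- the weights -/
noncomputable def wk (a k : ℕ) : ℝ := Real.exp (-(k : ℝ)) * (2 * ((k : ℝ) + 1)) ^ a

theorem wk_nonneg (a k : ℕ) : 0 ≤ wk a k := by
  unfold wk
  positivity

theorem wk_summable (a : ℕ) : Summable (wk a) := by
  have h1 := Real.summable_pow_mul_exp_neg_nat_mul a one_pos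
  have h2 := (summable_nat_add_iff 1).2 h1
  have h3 := h2.mul_left (2 ^ a * Real.exp 1)
  refine h3.congr fun k => ?_
  unfold wk
  push_cast
  rw [mul_pow]
  have h4 : Real.exp (-(k : ℝ)) = Real.exp 1 * Real.exp (-1 * ((k : ℝ) + 1)) := by
    rw [← Real.exp_add]
    congr 1
    ring
  rw [h4]
  ring

/-- the sum of the weights -/
noncomputable def W (a : ℕ) : ℝ := ∑' k, wk a k

theorem sum_wk_le (a M : ℕ) : ∑ k ∈ Finset.range M, wk a k ≤ W a :=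
  (wk_summable a).sum_le_tsum _ fun k _ => wk_nonneg a k

theorem W_pos (a : ℕ) : 0 < W a := by
  have h1 := sum_wk_le a 1
  rw [Finset.sum_range_one] at h1
  have h2 : 0 < wk a 0 := by
    unfold wk
    positivity
  linarith

/-- doubling gives polynomial growth -/
theorem growth {N : ℝ → ℝ} (hN0 : ∀ X, 0 ≤ N X) (hmono : Monotone N) {C X₀ : ℝ} {a : ℕ}
    (hC : 1 ≤ C) (hCa : C ≤ 2 ^ a) (hX₀ : 0 < X₀) (hd : ∀ X, X₀ ≤ X → N (2 * X) ≤ C * N X)
    (X : ℝ) (hX : X₀ ≤ X) (k : ℕ) :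
    N (((k : ℝ) + 1) * X) ≤ (2 * ((k : ℝ) + 1)) ^ a * N X := by
  have hX0 : 0 < X := hX₀.trans_le hX
  have h1 : ∀ j : ℕ, N (2 ^ j * X) ≤ C ^ j * N X := by
    intro j
    induction j with
    | zero => simp
    | succ j ih =>
      have h2 : X₀ ≤ 2 ^ j * X := by
        have h3 : (1 : ℝ) ≤ 2 ^ j := one_le_pow₀ (by norm_num)
        nlinarith
      calc N (2 ^ (j + 1) * X) = N (2 * (2 ^ j * X)) := by
            congr 1
            ring
        _ ≤ C * N (2 ^ j * X) := hd _ h2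
        _ ≤ C * (C ^ j * N X) := by gcongr
        _ = C ^ (j + 1) * N X := by ring
  set L := Nat.log 2 (k + 1) with hL
  have h4 : ((k : ℝ) + 1) ≤ 2 ^ (L + 1) := by
    have h5 := Nat.lt_pow_succ_log_self (b := 2) (by norm_num) (k + 1)
    exact_mod_cast h5.le
  have h6 : (2 : ℝ) ^ L ≤ (k : ℝ) + 1 := by
    have h5 := Nat.pow_log_le_self 2 (x := k + 1) (by omega)
    exact_mod_cast h5
  have hN := hN0 X
  calc N (((k : ℝ) + 1) * X) ≤ N (2 ^ (L + 1) * X) := by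
        apply hmono
        gcongr
    _ ≤ C ^ (L + 1) * N X := h1 _
    _ ≤ (2 ^ a) ^ (L + 1) * N X := by gcongr
    _ = (2 ^ (L + 1)) ^ a * N X := by rw [← pow_mul, ← pow_mul, mul_comm a]
    _ ≤ (2 * ((k : ℝ) + 1)) ^ a * N X := by
        gcongr
        rw [pow_succ]
        linarith

/-- weighted sums in finitely many families, by layers -/
theorem layer_sum (hW : CLW) {T : Type} [Fintype T] {β : T → Type} (n : ∀ τ, β τ → ℕ)
    (A : ∀ τ, Set (β τ)) (G : ∀ τ, Finset (β τ)) (F : T → ℕ) (hF : ∀ τ, 1 ≤ F τ) (X : ℝ)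
    (hX : 0 < X) (hfin : ∀ τ (Y : ℝ), {b | b ∈ A τ ∧ (n τ b : ℝ) ≤ Y}.Finite)
    (hG : ∀ τ, ∀ b ∈ G τ, b ∈ A τ) (a : ℕ) (R : ℝ) (hR0 : 0 ≤ R)
    (hR : ∀ k : ℕ, ∑ τ, ({b | b ∈ A τ ∧ (n τ b : ℝ) ≤ (((k : ℝ) + 1) * X) / F τ}.ncard : ℝ) ≤
      R * (2 * ((k : ℝ) + 1)) ^ a) :
    ∑ τ, ∑ b ∈ G τ, Real.exp (-(n τ b / (X / F τ))) ≤ R * W a := by
  have hFpos : ∀ τ, (0 : ℝ) < F τ := fun τ => by exact_mod_cast hF τ
  have h1 : ∀ τ, ∃ M₀ : ℕ, ∀ M, M₀ ≤ M → ∑ b ∈ G τ, Real.exp (-(n τ b / (X / F τ))) ≤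
      ∑ k ∈ Finset.range M, Real.exp (-(k : ℝ)) *
        ({b | b ∈ A τ ∧ (n τ b : ℝ) ≤ ((k : ℝ) + 1) * (X / F τ)}.ncard : ℝ) := fun τ =>
    hW (β τ) (n τ) (A τ) (G τ) (X / F τ) (div_pos hX (hFpos τ)) (hfin τ) (hG τ)
  choose M₀ hM₀ using h1
  set M := ∑ τ, M₀ τ with hM
  have h2 : ∀ τ, M₀ τ ≤ M := fun τ =>
    Finset.single_le_sum (f := M₀) (fun _ _ => Nat.zero_le _) (Finset.mem_univ τ)
  calc ∑ τ, ∑ b ∈ G τ, Real.exp (-(n τ b / (X / F τ)))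
      ≤ ∑ τ, ∑ k ∈ Finset.range M, Real.exp (-(k : ℝ)) *
        ({b | b ∈ A τ ∧ (n τ b : ℝ) ≤ ((k : ℝ) + 1) * (X / F τ)}.ncard : ℝ) :=
        Finset.sum_le_sum fun τ _ => hM₀ τ M (h2 τ)
    _ = ∑ k ∈ Finset.range M, Real.exp (-(k : ℝ)) * ∑ τ,
        ({b | b ∈ A τ ∧ (n τ b : ℝ) ≤ (((k : ℝ) + 1) * X) / F τ}.ncard : ℝ) := by
        rw [Finset.sum_comm]
        refine Finset.sum_congr rfl fun k _ => ?_
        rw [Finset.mul_sum]
        refine Finset.sum_congr rfl fun τ _ => ?_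
        rw [mul_div_assoc]
    _ ≤ ∑ k ∈ Finset.range M, Real.exp (-(k : ℝ)) * (R * (2 * ((k : ℝ) + 1)) ^ a) :=
        Finset.sum_le_sum fun k _ => mul_le_mul_of_nonneg_left (hR k) (Real.exp_pos _).le
    _ = R * ∑ k ∈ Finset.range M, wk a k := by
        rw [Finset.mul_sum]
        refine Finset.sum_congr rfl fun k _ => ?_
        unfold wk
        ring
    _ ≤ R * W a := mul_le_mul_of_nonneg_left (sum_wk_le a M) hR0

/-- the weighted sum with twice the scale -/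
theorem tail_bound (hW : CLW) (K : ℝ) (hK : 1 ≤ K) : ∃ K2 : ℝ, 0 ≤ K2 ∧
    ∀ (β : Type) (n : β → ℕ) (g : ℝ → ℝ), Slow g K →
      (∀ X : ℝ, 0 < X → {b : β | (n b : ℝ) ≤ X}.Finite ∧
        ({b : β | (n b : ℝ) ≤ X}.ncard : ℝ) ≤ K * (X * g X)) →
      ∀ Y : ℝ, 1 ≤ Y → ∀ G : Finset β,
        ∑ b ∈ G, Real.exp (-(n b / (2 * Y))) ≤ K2 * (Y * g Y) := by
  obtain ⟨d, hd⟩ : ∃ d : ℕ, K ≤ 2 ^ d := by
    obtain ⟨l, hl⟩ := pow_unbounded_of_one_lt K (show (1 : ℝ) < 2 by norm_num)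
    exact ⟨l, hl.le⟩
  have hK0 : 0 < K := by linarith
  refine ⟨K * 4 ^ d * W (d + 1), by have := W_pos (d + 1); positivity, ?_⟩
  intro β n g hg hup Y hY G
  have hY0 : 0 < Y := by linarith
  have hg0 : 0 < g Y := lt_of_lt_of_le one_pos (hg.one Y)
  have hfin : ∀ Z : ℝ, {b : β | (n b : ℝ) ≤ Z}.Finite := by
    intro Z
    refine (hup (max Z 1) (by positivity)).1.subset ?_
    intro b hb
    exact le_trans (show (n b : ℝ) ≤ Z from hb) (le_max_left _ _)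
  have h1 := layer_sum hW (T := Unit) (β := fun _ => β) (fun _ => n) (fun _ => Set.univ)
    (fun _ => G) (fun _ => 1) (fun _ => le_rfl) (2 * Y) (by positivity)
    (fun _ Z => (hfin Z).subset fun b hb => hb.2) (fun _ b _ => Set.mem_univ b) (d + 1)
    (K * 4 ^ d * (Y * g Y)) (by positivity) (fun k => by
      simp only [Finset.univ_unique, Finset.sum_singleton, Nat.cast_one, div_one, Set.mem_univ,
        true_and]
      set L := Nat.log 2 (k + 1) with hL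
      have h4 : ((k : ℝ) + 1) ≤ 2 ^ (L + 1) := by
        have h5 := Nat.lt_pow_succ_log_self (b := 2) (by norm_num) (k + 1)
        exact_mod_cast h5.le
      have h6 : (2 : ℝ) ^ L ≤ (k : ℝ) + 1 := by
        have h5 := Nat.pow_log_le_self 2 (x := k + 1) (by omega)
        exact_mod_cast h5
      have h7 : g (((k : ℝ) + 1) * (2 * Y)) ≤ K * (K ^ (L + 2) * g Y) := by
        have h8 : ((k : ℝ) + 1) * (2 * Y) ≤ 2 ^ (L + 2) * Y := by
          calc ((k : ℝ) + 1) * (2 * Y) ≤ 2 ^ (L + 1) * (2 * Y) := by gcongr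
            _ = _ := by ring
        refine (hg.mono _ _ h8).trans ?_
        exact mul_le_mul_of_nonneg_left (slow_pow hg _ Y hY) hK0.le
      have h9 : K ^ (L + 3) ≤ 4 ^ d * (2 * ((k : ℝ) + 1)) ^ d := by
        calc K ^ (L + 3) ≤ (2 ^ d) ^ (L + 3) := by gcongr
          _ = (2 ^ (L + 3)) ^ d := by rw [← pow_mul, ← pow_mul, mul_comm d]
          _ ≤ (4 * (2 * ((k : ℝ) + 1))) ^ d := by
            gcongr
            rw [pow_add]
            linarith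
          _ = _ := by rw [mul_pow]
      refine ((hup _ (by positivity)).2).trans ?_
      calc K * (((k : ℝ) + 1) * (2 * Y) * g (((k : ℝ) + 1) * (2 * Y)))
          ≤ K * (((k : ℝ) + 1) * (2 * Y) * (K * (K ^ (L + 2) * g Y))) := by gcongr
        _ = K * ((2 * ((k : ℝ) + 1)) * Y * (K ^ (L + 3) * g Y)) := by ring
        _ ≤ K * ((2 * ((k : ℝ) + 1)) * Y * ((4 ^ d * (2 * ((k : ℝ) + 1)) ^ d) * g Y)) := by
            gcongr
        _ = K * 4 ^ d * (Y * g Y) * (2 * ((k : ℝ) + 1)) ^ (d + 1) := by ring)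
  have h2 : ∑ b ∈ G, Real.exp (-(n b / (2 * Y))) ≤ K * 4 ^ d * (Y * g Y) * W (d + 1) := by
    simpa using h1
  refine h2.trans (le_of_eq ?_)
  ring

/-- the part of the weighted sum outside `[√Y, Y²]` is small -/
theorem mid_bound (hW : CLW) (K : ℝ) (hK : 1 ≤ K) (ε : ℝ) (hε : 0 < ε) : ∃ X₀ : ℝ, 1 ≤ X₀ ∧
    ∀ (β : Type) (n : β → ℕ) (g : ℝ → ℝ), Slow g K →
      (∀ X : ℝ, 0 < X → {b : β | (n b : ℝ) ≤ X}.Finite ∧
        ({b : β | (n b : ℝ) ≤ X}.ncard : ℝ) ≤ K * (X * g X)) →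
      ∀ Y : ℝ, X₀ ≤ Y → ∀ E : Finset β,
        ∑ b ∈ E, Real.exp (-(n b / Y)) ≤
          ∑ b ∈ E with (√Y ≤ n b ∧ (n b : ℝ) ≤ Y ^ 2), Real.exp (-(n b / Y)) +
            ε * (Y * g Y) := by
  classical
  obtain ⟨K2, hK2, hT⟩ := tail_bound hW K hK
  have hK0 : 0 < K := by linarith
  refine ⟨max 1 (max ((2 * K ^ 2 / ε) ^ 2) (4 * K2 / ε)), le_max_left _ _, ?_⟩
  intro β n g hg hup Y hY E
  have hY1 : 1 ≤ Y := (le_max_left _ _).trans hY
  have hYa : (2 * K ^ 2 / ε) ^ 2 ≤ Y := ((le_max_left _ _).trans (le_max_right _ _)).trans hY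
  have hYb : 4 * K2 / ε ≤ Y := ((le_max_right _ _).trans (le_max_right _ _)).trans hY
  have hY0 : 0 < Y := by linarith
  have hg0 : 0 < g Y := lt_of_lt_of_le one_pos (hg.one Y)
  have hs0 : 0 < √Y := Real.sqrt_pos.mpr hY0
  have hs1 : 2 * K ^ 2 / ε ≤ √Y := Real.le_sqrt_of_sq_le hYa
  have hss : √Y * √Y = Y := Real.mul_self_sqrt hY0.le
  have hsY : √Y ≤ Y := by
    have h1 : 1 ≤ √Y := Real.one_le_sqrt.mpr hY1
    nlinarith
  have hpt : ∀ b ∈ E.filter (fun b => ¬ (√Y ≤ n b ∧ (n b : ℝ) ≤ Y ^ 2)),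
      Real.exp (-(n b / Y)) ≤ (if (n b : ℝ) ≤ √Y then 1 else 0) +
        Real.exp (-(Y / 2)) * Real.exp (-(n b / (2 * Y))) := by
    intro b hb
    have hb2 := (Finset.mem_filter.mp hb).2
    have hn0 : (0 : ℝ) ≤ n b := Nat.cast_nonneg _
    by_cases h1 : (n b : ℝ) ≤ √Y
    · rw [if_pos h1]
      have h2 : Real.exp (-(n b / Y)) ≤ 1 := by
        rw [Real.exp_le_one_iff]
        have : 0 ≤ (n b : ℝ) / Y := by positivity
        linarith
      have h3 : 0 ≤ Real.exp (-(Y / 2)) * Real.exp (-(n b / (2 * Y))) := by positivity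
      linarith
    · rw [if_neg h1, zero_add, ← Real.exp_add]
      push Not at h1
      have h2 : Y ^ 2 < n b := by
        by_contra h3
        push Not at h3
        exact hb2 ⟨h1.le, h3⟩
      apply Real.exp_le_exp.mpr
      have h3 : (n b : ℝ) / Y = n b / (2 * Y) + n b / (2 * Y) := by
        field_simp
        ring
      have h4 : Y / 2 ≤ n b / (2 * Y) := by
        rw [div_le_div_iff₀ (by norm_num) (by positivity)]
        nlinarith
      linarith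
  have hA : ∑ b ∈ E.filter (fun b => ¬ (√Y ≤ n b ∧ (n b : ℝ) ≤ Y ^ 2)),
      (if (n b : ℝ) ≤ √Y then (1 : ℝ) else 0) ≤ ε / 2 * (Y * g Y) := by
    have h1 : ∑ b ∈ E.filter (fun b => ¬ (√Y ≤ n b ∧ (n b : ℝ) ≤ Y ^ 2)),
        (if (n b : ℝ) ≤ √Y then (1 : ℝ) else 0) ≤ ({b : β | (n b : ℝ) ≤ √Y}.ncard : ℝ) := by
      rw [← Finset.sum_filter, Finset.sum_const, nsmul_eq_mul, mul_one]
      have h2 : ((E.filter (fun b => ¬ (√Y ≤ n b ∧ (n b : ℝ) ≤ Y ^ 2))).filter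
          (fun b => (n b : ℝ) ≤ √Y)).card ≤ {b : β | (n b : ℝ) ≤ √Y}.ncard := by
        rw [← Set.ncard_coe_finset]
        refine Set.ncard_le_ncard ?_ (hup _ hs0).1
        intro b hb
        exact (Finset.mem_filter.mp (Finset.mem_coe.mp hb)).2
      exact_mod_cast h2
    have h3 := (hup _ hs0).2
    have h4 : g (√Y) ≤ K * g Y := hg.mono _ _ hsY
    have h5 : K * K * √Y ≤ ε / 2 * Y := by
      have h6 : 2 * K ^ 2 ≤ √Y * ε := by
        rw [div_le_iff₀ hε] at hs1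
        exact hs1
      calc K * K * √Y = (2 * K ^ 2) * √Y / 2 := by ring
        _ ≤ (√Y * ε) * √Y / 2 := by gcongr
        _ = ε / 2 * (√Y * √Y) := by ring
        _ = _ := by rw [hss]
    calc _ ≤ _ := h1
      _ ≤ K * (√Y * g (√Y)) := h3
      _ ≤ K * (√Y * (K * g Y)) := by gcongr
      _ = (K * K * √Y) * g Y := by ring
      _ ≤ (ε / 2 * Y) * g Y := by gcongr
      _ = _ := by ring
  have hB : ∑ b ∈ E.filter (fun b => ¬ (√Y ≤ n b ∧ (n b : ℝ) ≤ Y ^ 2)),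
      Real.exp (-(Y / 2)) * Real.exp (-(n b / (2 * Y))) ≤ ε / 2 * (Y * g Y) := by
    rw [← Finset.mul_sum]
    have h1 := hT β n g hg hup Y hY1 (E.filter (fun b => ¬ (√Y ≤ n b ∧ (n b : ℝ) ≤ Y ^ 2)))
    have h2 : Real.exp (-(Y / 2)) ≤ 2 / Y := by
      rw [Real.exp_neg]
      have h3 : Y / 2 ≤ Real.exp (Y / 2) := by
        have := Real.add_one_le_exp (Y / 2)
        linarith
      calc (Real.exp (Y / 2))⁻¹ ≤ (Y / 2)⁻¹ := inv_anti₀ (by positivity) h3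
        _ = 2 / Y := by rw [inv_div]
    have h4 : 2 / Y * K2 ≤ ε / 2 := by
      rw [div_le_iff₀ hε] at hYb
      rw [div_mul_eq_mul_div, div_le_div_iff₀ hY0 (by norm_num)]
      linarith
    calc _ ≤ Real.exp (-(Y / 2)) * (K2 * (Y * g Y)) := by gcongr
      _ ≤ 2 / Y * (K2 * (Y * g Y)) := by gcongr
      _ = (2 / Y * K2) * (Y * g Y) := by ring
      _ ≤ _ := by gcongr
  rw [← Finset.sum_filter_add_sum_filter_not E (fun b => √Y ≤ n b ∧ (n b : ℝ) ≤ Y ^ 2)]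
  have h5 := Finset.sum_le_sum hpt
  rw [Finset.sum_add_distrib] at h5
  linarith

end Pool.Agent.Helper23.TH
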