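import Pool.Agent.Helper38.TH.Goals4
import Pool.Agent.Helper35.M3.QB

/-!
# Project TH (MP_fc6b1e_nt, T100), packet G4_B: `D₁z` large, with a weight

Adaptation of `Pool/Agent/Helper35/M3/QB.lean` (the unweighted case), with the weight of
`Pool/Agent/Helper32/TH/TLRGG.lean`.
-/

set_option autoImplicit false
set_option linter.unusedSectionVars false

namespace Pool.Agent.Helper23.TH.G4B

open Finset Pool.Agent.Helper17.PP Pool.Agent.Helper17.PP0 Pool.Agent.Helper17.PP2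
open Pool.Agent.Helper11.M3 Pool.Agent.Helper38.TH
open Pool.Agent.Helper17.PP0.LRG (rsj nm_insert nm_union one_le_nm mem_blk mem_mods exp_eq)
open Pool.Agent.Helper30.PP2 (c0 ph_congr ph_insert ph_norm)
open Pool.Agent.Helper32.TH (ps Wz cV AA BB norm_AA norm_BB Wz_insert chr_mul p_le_card)
open Pool.Agent.Helper35.M3.QB (cd yd cutd_self cutd_ne cute_self cute_ne Aq norm_Aq card_rs₄
  ful_eq upto_sumW)

section Main

variable {p : ℕ} [Fact p.Prime] {B B₀ k U Λ C : Type} [Field k] [Fintype k]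
    [Algebra (ZMod p) k] [AddCommGroup U] [Module k U] [Fintype U]
    [AddCommGroup Λ] [Module k Λ] [Fintype Λ] [AddCommGroup C] (S : Sys p B B₀ k U Λ C)

open Classical in
/-- The conditions on `D`, for fixed `r`, `P₁ ∈ r` and the label `ε` of `q`. -/
structure Dz (N : B → Prop) (V : B → Prop) (u₀ : k) (z : B → ZMod p) (e : B → k)
    (I i j m : ℕ) (t ε : k) (c y : B → k) (P r : Finset B)
    (P₁ : B) (D : Finset B) : Prop where
  sub : D ⊆ P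
  dis : Disjoint D r
  blk : ∀ q' ∈ D ∪ r, S.spl q' → S.bl q' ≠ j
  spl : ∀ q' ∈ D, S.spl q' ∧ y q' ≠ 0 ∧ cV V u₀ z y (c0 S j c) q' * ε ≠ t * e q'
  log : Nat.log 2 (S.nm D) = i
  rst : ∀ q' ∈ r, S.spl q' → q' ≠ P₁ → y q' = 0 ∨ cV V u₀ z y (c0 S j c) q' * ε = t * e q'
  inj : Set.InjOn S.bs ((D ∪ r : Finset B) : Set B)
  piv : Piv S N (D ∪ r) P₁
  ma : m ≤ S.bl P₁
  hl : 2 * I ≤ Nat.log 2 (S.nm ((((D ∪ r).erase P₁).filter fun q' ↦ S.spl q').filter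
    fun q' ↦ y q' ≠ 0))

open Classical in
theorem mem_D₁z {V : B → Prop} {u₀ : k} {z : B → ZMod p} {e : B → k} {s : Finset B} {q P₁ : B}
    (hq : q ∉ s) {j : ℕ} (hj : S.bl q = j) {t : k} {c y : B → k} {q' : B} :
    q' ∈ D₁z S V u₀ z e (insert q s) q P₁ t c y ↔
      (q' ≠ P₁ ∧ q' ∈ s) ∧ S.spl q' ∧ y q' ≠ 0 ∧
        cV V u₀ z y (c0 S j c) q' * e q ≠ t * e q' := by
  unfold D₁z sp
  rw [mem_filter, mem_filter, mem_erase, erase_insert hq, hj]
  have key : ∀ hne : q' ≠ q, ∀ h1 : q' ≠ P₁, cV V u₀ z y (cutd S j q P₁ t c) q' =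
      cV V u₀ z y (c0 S j c) q' := by
    intro hne h1
    unfold cV
    rw [cutd_ne S j q P₁ q' t c hne, cd, if_neg h1]
  constructor
  · rintro ⟨⟨⟨h1, h2⟩, h3⟩, h4, h5⟩
    have hne : q' ≠ q := fun h ↦ hq (h ▸ h2)
    rw [key hne h1] at h5
    exact ⟨⟨h1, h2⟩, h3, h4, h5⟩
  · rintro ⟨⟨h1, h2⟩, h3, h4, h5⟩
    have hne : q' ≠ q := fun h ↦ hq (h ▸ h2)
    refine ⟨⟨⟨h1, h2⟩, h3⟩, h4, ?_⟩
    rw [key hne h1]
    exact h5

open Classical in
theorem Da_insert {s : Finset B} {q P₁ : B} (hq : q ∉ s) (y : B → k) :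
    Da S (insert q s) q P₁ y =
      ((s.erase P₁).filter fun q' ↦ S.spl q').filter fun q' ↦ y q' ≠ 0 := by
  unfold Da sp
  rw [erase_insert hq]

open Classical in
theorem cond_iff {N : B → Prop} (nspl : ∀ q, N q → ¬ S.spl q) (V : B → Prop) (u₀ : k)
    (z : B → ZMod p) (I₀ : B → Prop) (e : B → k) (χ : AddChar Λ ℂ) {I i j m : ℕ}
    {t : k} {c y : B → k} {P r D : Finset B} {P₁ q : B} (hD : D ⊆ P) (hr : Disjoint D r)
    (hP₁ : P₁ ∈ r) (hq : q ∉ D ∪ r) :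
    (S.Fam (insert q (D ∪ r)) ∧ (Wv S (insert q (D ∪ r)) q ∧ S.bl q = j ∧ I₀ q) ∧
      (Piv S N (insert q (D ∪ r)) P₁ ∧ P₁ ≠ q ∧ m ≤ S.bl P₁) ∧
      (D = D₁z S V u₀ z e (insert q (D ∪ r)) q P₁ t c y ∧ Nat.log 2 (S.nm D) = i ∧
        HL S I (insert q (D ∪ r)) q P₁ χ c y)) ↔
    ((S.bl q = j ∧ S.spl q) ∧ I₀ q) ∧ Dz S N V u₀ z e I i j m t (e q) c y P r P₁ D ∧
      S.cls q + ∑ q' ∈ D ∪ r, S.cls q' = S.cl₀ := by
  have hPD : P₁ ∉ D := fun h ↦ disjoint_left.1 hr h hP₁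
  have hPs : P₁ ∈ D ∪ r := mem_union_right _ hP₁
  have hPq : P₁ ≠ q := fun h ↦ hq (h ▸ hPs)
  constructor
  · rintro ⟨⟨hF1, hF2⟩, ⟨hW, hj, hI⟩, ⟨hPv, -, hm⟩, hDe, hlog, hHL⟩
    refine ⟨⟨⟨hj, hW.spl⟩, hI⟩, ⟨hD, hr, ?_, ?_, hlog, ?_, ?_, ?_, hm, ?_⟩, ?_⟩
    · intro q' hq' hs hb
      have hne : q' ≠ q := fun h ↦ hq (h ▸ hq')
      exact hW.uniq q' (mem_insert_of_mem hq') hne hs (hb.trans hj.symm)
    · intro q' hq'
      rw [hDe] at hq'
      exact ((mem_D₁z S hq hj).1 hq').2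
    · intro q' hq' hs hne
      by_contra hcon
      push Not at hcon
      have h1 : q' ∈ D₁z S V u₀ z e (insert q (D ∪ r)) q P₁ t c y :=
        (mem_D₁z S hq hj).2 ⟨⟨hne, mem_union_right _ hq'⟩, hs, hcon.1, hcon.2⟩
      rw [← hDe] at h1
      exact disjoint_left.1 hr h1 hq'
    · refine hF1.mono ?_
      exact_mod_cast subset_insert _ _
    · exact ⟨hPs, hPv.isN, fun P' hP' hN hne ↦ hPv.top P' (mem_insert_of_mem hP') hN hne⟩
    · unfold HL at hHL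
      rw [Da_insert S hq] at hHL
      exact hHL
    · rw [← sum_insert hq]
      exact hF2
  · rintro ⟨⟨⟨hj, hs⟩, hI⟩, hDc, hcl⟩
    refine ⟨⟨?_, ?_⟩, ⟨⟨mem_insert_self _ _, hs, ?_⟩, hj, hI⟩,
      ⟨⟨mem_insert_of_mem hPs, hDc.piv.isN, ?_⟩, hPq, hDc.ma⟩, ?_, hDc.log, ?_⟩
    · rw [coe_insert, Set.injOn_insert (by exact_mod_cast hq)]
      refine ⟨hDc.inj, ?_⟩
      rintro ⟨q', hq', he⟩
      have hs' : S.spl q' := (S.bsS q' q he).2 hs
      have hb' : S.bl q' = j := by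
        rw [← hj]
        unfold Sys.bl
        rw [S.bsN q' q he]
      exact hDc.blk q' (by exact_mod_cast hq') hs' hb'
    · rw [sum_insert hq]
      exact hcl
    · intro q' hq' hne hs' hb
      exact hDc.blk q' (mem_of_mem_insert_of_ne hq' hne) hs' (hb.trans hj)
    · intro P' hP' hN hne
      rcases mem_insert.1 hP' with rfl | hP'
      · exact absurd hs (nspl _ hN)
      · exact hDc.piv.top P' hP' hN hne
    · ext q'
      rw [mem_D₁z S hq hj]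
      constructor
      · intro hq'
        exact ⟨⟨fun h ↦ hPD (h ▸ hq'), mem_union_left _ hq'⟩, hDc.spl q' hq'⟩
      · rintro ⟨⟨h1, h2⟩, h3, h4, h5⟩
        rcases mem_union.1 h2 with h | h
        · exact h
        · rcases hDc.rst q' h h3 h1 with h6 | h6
          · exact absurd h6 h4
          · exact absurd h6 h5
    · unfold HL
      rw [Da_insert S hq]
      exact hDc.hl

open Classical in
theorem phase (ψ : AddChar k ℂ) (χ : AddChar Λ ℂ) {N : B → Prop} {V : B → Prop} {u₀ : k}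
    {z : B → ZMod p}
    {e : B → k} {I i j m : ℕ} {t ε : k} {c y : B → k} {P r D : Finset B} {P₁ : B}
    (h : Dz S N V u₀ z e I i j m t ε c y P r P₁ D) (hP₁ : P₁ ∈ r) {q : B} (hq : q ∉ D ∪ r)
    (x : U) :
    ph S ψ χ (insert q (D ∪ r)) x (cutd S j q P₁ t c) (cute S j q P₁ 0 0 y) =
      ph S ψ χ (D ∪ r) x (cd S j P₁ c) (yd S j P₁ y) * Aq S ψ χ j t c y r P₁ q *
        S.chr ψ D y (c0 S j c) t q := by
  have hPD : P₁ ∉ D := fun h' ↦ disjoint_left.1 h.dis h' hP₁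
  have hne : ∀ q' ∈ D ∪ r, q' ≠ q := fun q' hq' h' ↦ hq (h' ▸ hq')
  have hc : ∀ q' ∈ D ∪ r, cutd S j q P₁ t c q' = cd S j P₁ c q' := fun q' hq' ↦
    cutd_ne S j q P₁ q' t c (hne q' hq')
  have hy : ∀ q' ∈ D ∪ r, cute S j q P₁ 0 0 y q' = yd S j P₁ y q' := fun q' hq' ↦
    cute_ne S j q P₁ q' 0 y (hne q' hq')
  rw [ph_insert S ψ χ (D ∪ r) x _ _ q hq, ph_congr S ψ χ (D ∪ r) x _ _ _ _ hc hy, cutd_self,
    cute_self, zero_mul, AddChar.map_zero_eq_one, mul_one, prod_union h.dis]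
  have e1 : ∏ q' ∈ D, ψ (cute S j q P₁ 0 0 y q' * (t * S.a q' q +
      cutd S j q P₁ t c q' * algebraMap (ZMod p) k (S.kap q' q))) =
      S.chr ψ D y (c0 S j c) t q := by
    unfold Sys.chr
    refine prod_congr rfl fun q' hq' ↦ ?_
    have h1 : q' ∈ D ∪ r := mem_union_left _ hq'
    have h2 : q' ≠ P₁ := fun h' ↦ hPD (h' ▸ hq')
    rw [hc q' h1, hy q' h1, cd, yd, if_neg h2, if_neg h2,
      if_pos ⟨(h.spl q' hq').1, h.blk q' h1 (h.spl q' hq').1⟩]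
  have e2 : ∏ q' ∈ r, ψ (cute S j q P₁ 0 0 y q' * (t * S.a q' q +
      cutd S j q P₁ t c q' * algebraMap (ZMod p) k (S.kap q' q))) =
      ∏ q' ∈ r, ψ (yd S j P₁ y q' * (t * S.a q' q +
      cd S j P₁ c q' * algebraMap (ZMod p) k (S.kap q' q))) := by
    refine prod_congr rfl fun q' hq' ↦ ?_
    rw [hc q' (mem_union_right _ hq'), hy q' (mem_union_right _ hq')]
  rw [e1, e2]
  unfold Aq
  ring

open Classical in
/-- The summand for fixed `x, χ, c, y`. -/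
noncomputable def GG (ψ : AddChar k ℂ) (N : B → Prop) (V I₀ : B → Prop) (u₀ : k)
    (h : Finset B → (B → ZMod p) → ℂ) (z : B → ZMod p) (e : B → k) (I i j m : ℕ) (t : k) (X : ℝ)
    (x : U) (χ : AddChar Λ ℂ) (c y : B → k) (b : Finset B) (q P₁ : B) (D : Finset B) : ℂ :=
  if S.Fam b ∧ (Wv S b q ∧ S.bl q = j ∧ I₀ q) ∧ (Piv S N b P₁ ∧ P₁ ≠ q ∧ m ≤ S.bl P₁) ∧
      (D = D₁z S V u₀ z e b q P₁ t c y ∧ Nat.log 2 (S.nm D) = i ∧ HL S I b q P₁ χ c y) then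
    (Fintype.card k : ℂ) ^ (rs₄ S b q P₁).card *
      ph S ψ χ b x (cutd S j q P₁ t c) (cute S j q P₁ 0 0 y) *
      (Wz S (ps ψ u₀) V h z b * (Real.exp (-(S.nm b / X)) : ℂ))
  else 0

open Classical in
/-- The term of the bilinear form. -/
noncomputable def zt (ψ : AddChar k ℂ) (V : B → Prop) (u₀ : k)
    (h : Finset B → (B → ZMod p) → ℂ) (z : B → ZMod p) (j : ℕ) (t : k) (X : ℝ) (x : U)
    (χ : AddChar Λ ℂ) (c y : B → k) (r : Finset B) (P₁ q : B) (D : Finset B) : ℂ :=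
  (AA S (ps ψ u₀) V z r q * Aq S ψ χ j t c y r P₁ q) *
    ((Fintype.card k : ℂ) ^ (rsj S j D).card * ph S ψ χ (D ∪ r) x (cd S j P₁ c) (yd S j P₁ y) *
      BB S (ps ψ u₀) V h z D r) *
    S.chr ψ D y (cV V u₀ z y (c0 S j c)) t q *
    (Real.exp (-(S.N q * S.nm D / (X / S.nm r))) : ℂ)

open Classical in
theorem GG_eq (ψ : AddChar k ℂ) {N : B → Prop} (nspl : ∀ q, N q → ¬ S.spl q) (V I₀ : B → Prop)
    (hIV : ∀ q, I₀ q → ¬ V q) (u₀ : k)
    (h : Finset B → (B → ZMod p) → ℂ) (z : B → ZMod p) (e : B → k) (I i j m : ℕ)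
    (t : k) (X : ℝ) (x : U) (χ : AddChar Λ ℂ) (c y : B → k) {P r D : Finset B} {P₁ q : B}
    (hD : D ⊆ P) (hr : Disjoint D r) (hP₁ : P₁ ∈ r) (hq : q ∉ D ∪ r) (hj : S.bl q = j)
    (hs : S.spl q) :
    GG S ψ N V I₀ u₀ h z e I i j m t X x χ c y (insert q (D ∪ r)) q P₁ D =
      ((p : ℂ) ^ (r.filter V).card * (Fintype.card k : ℂ) ^ (rsj S j (r.erase P₁)).card) *
      if I₀ q ∧ Dz S N V u₀ z e I i j m t (e q) c y P r P₁ D ∧
          S.cls q + ∑ q' ∈ D ∪ r, S.cls q' = S.cl₀ then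
        zt S ψ V u₀ h z j t X x χ c y r P₁ q D else 0 := by
  have hiff := cond_iff S nspl V u₀ z I₀ e χ (I := I) (i := i) (j := j) (m := m) (t := t)
    (c := c) (y := y) hD hr hP₁ hq
  unfold GG
  by_cases h' : I₀ q ∧ Dz S N V u₀ z e I i j m t (e q) c y P r P₁ D ∧
      S.cls q + ∑ q' ∈ D ∪ r, S.cls q' = S.cl₀
  · rw [if_pos (hiff.2 ⟨⟨⟨hj, hs⟩, h'.1⟩, h'.2⟩), if_pos h', phase S ψ χ h'.2.1 hP₁ hq x,
      card_rs₄ S hr hP₁ hq hj, exp_eq S hr hq X, pow_add,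
      Wz_insert S (ps ψ u₀) V h z hr hq (hIV q h'.1)]
    unfold zt
    rw [← chr_mul S ψ u₀ V z D y (c0 S j c) t q fun q' hq' ↦ (h'.2.1.spl q' hq').2.1]
    ring
  · rw [if_neg (fun h2 ↦ h' ⟨(hiff.1 h2).1.2, (hiff.1 h2).2⟩), if_neg h', mul_zero]

open Classical in
theorem bil [Finite C] (ψ : AddChar k ℂ) {N : B → Prop}
    {e : B → k} {g : ℝ → ℝ} {K : ℕ} (hyp : HypG4 S ψ e N g K) (V I₀ : B → Prop) (u₀ : k)
    (h : Finset B → (B → ZMod p) → ℂ) (hh : ∀ D z, ‖h D z‖ ≤ 1) (z : B → ZMod p)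
    (I i : ℕ) {j : ℕ} (hj : 1 ≤ j)
    (m : ℕ) {t : k} (ht : t ≠ 0) (ε : k) {X : ℝ} (hX : 0 < X) (x : U) (χ : AddChar Λ ℂ)
    (c y : B → k) (P r : Finset B) (P₁ : B) :
    ‖∑ q ∈ S.blk j with (S.spl q ∧ e q = ε), ∑ D ∈ S.mods i,
      if (q ∈ P ∧ I₀ q) ∧ Dz S N V u₀ z e I i j m t ε c y P r P₁ D ∧
          S.cls q + ∑ q' ∈ D ∪ r, S.cls q' = S.cl₀ then
        zt S ψ V u₀ h z j t X x χ c y r P₁ q D else 0‖ ≤
      Nat.card C * (K * 2 ^ (i + j) * (i + 1) ^ K * (2 : ℝ) ^ (-(min i j : ℝ) / K) *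
        Real.exp (-((2 : ℝ) ^ (i + j) / (2 * (X / S.nm r))))) := by
  let _ : Fintype C := Fintype.ofFinite C
  let α : C → B → ℂ := fun γ q ↦ if (q ∈ P ∧ I₀ q) ∧ S.cls q = γ then
    AA S (ps ψ u₀) V z r q * Aq S ψ χ j t c y r P₁ q else 0
  let β : C → Finset B → ℂ := fun γ D ↦
    if Dz S N V u₀ z e I i j m t ε c y P r P₁ D ∧ γ + ∑ q' ∈ D ∪ r, S.cls q' = S.cl₀ then
      (Fintype.card k : ℂ) ^ (rsj S j D).card *
        ph S ψ χ (D ∪ r) x (cd S j P₁ c) (yd S j P₁ y) * BB S (ps ψ u₀) V h z D r else 0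
  have h1 : ∀ (q : B) (D : Finset B),
      (if (q ∈ P ∧ I₀ q) ∧ Dz S N V u₀ z e I i j m t ε c y P r P₁ D ∧
          S.cls q + ∑ q' ∈ D ∪ r, S.cls q' = S.cl₀ then
        zt S ψ V u₀ h z j t X x χ c y r P₁ q D else 0) =
      ∑ γ : C, α γ q * β γ D * S.chr ψ D y (cV V u₀ z y (c0 S j c)) t q *
        (Real.exp (-(S.N q * S.nm D / (X / S.nm r))) : ℂ) := by
    intro q D
    rw [sum_eq_single (S.cls q)]
    · simp only [α, β]
      by_cases h2 : q ∈ P ∧ I₀ q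
      · by_cases h3 : Dz S N V u₀ z e I i j m t ε c y P r P₁ D ∧
            S.cls q + ∑ q' ∈ D ∪ r, S.cls q' = S.cl₀
        · rw [if_pos ⟨h2, h3⟩, if_pos ⟨h2, trivial⟩, if_pos h3]
          rfl
        · rw [if_neg (fun h4 ↦ h3 h4.2), if_neg h3]
          ring
      · rw [if_neg (fun h4 ↦ h2 h4.1), if_neg (fun h4 ↦ h2 h4.1)]
        ring
    · intro γ _ hγ
      simp only [α]
      rw [if_neg (fun h4 ↦ hγ h4.2.symm)]
      ring
    · intro h
      exact absurd (mem_univ _) h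
  simp only [h1]
  have h2 : ∑ q ∈ S.blk j with (S.spl q ∧ e q = ε), ∑ D ∈ S.mods i, ∑ γ : C,
      α γ q * β γ D * S.chr ψ D y (cV V u₀ z y (c0 S j c)) t q *
        (Real.exp (-(S.N q * S.nm D / (X / S.nm r))) : ℂ) =
      ∑ γ : C, ∑ q ∈ S.blk j with (S.spl q ∧ e q = ε), ∑ D ∈ S.mods i,
        α γ q * β γ D * S.chr ψ D y (cV V u₀ z y (c0 S j c)) t q *
        (Real.exp (-(S.N q * S.nm D / (X / S.nm r))) : ℂ) := by
    rw [sum_comm (s := (univ : Finset C))]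
    exact sum_congr rfl fun q _ ↦ sum_comm
  rw [h2]
  rw [Nat.card_eq_fintype_card]
  have hr : (0 : ℝ) < S.nm r := by exact_mod_cast one_le_nm S r
  have hk : (1 : ℝ) ≤ Fintype.card k := by
    have : 0 < Fintype.card k := Fintype.card_pos
    exact_mod_cast this
  refine (norm_sum_le_of_le _ fun γ _ ↦ hyp.bl₁G i j t ε y (cV V u₀ z y (c0 S j c)) (α γ) (β γ)
    (X / S.nm r) hj ht (div_pos hX hr) ?_ ?_ ?_).trans ?_
  · intro q
    simp only [α]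
    split_ifs
    · rw [norm_mul, norm_AA, norm_Aq, one_mul]
    · simp
  · intro D
    simp only [β]
    split_ifs
    · rw [norm_mul, norm_mul, ph_norm, mul_one, norm_pow, Complex.norm_natCast, two_mul,
        pow_add]
      refine mul_le_mul (pow_le_pow_right₀ hk ?_) (norm_BB S _ V h hh z D r) (norm_nonneg _)
        (by positivity)
      unfold rsj
      exact card_filter_le _ _
    · rw [norm_zero]
      positivity
  · intro D hD
    simp only [β] at hD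
    by_cases h3 : Dz S N V u₀ z e I i j m t ε c y P r P₁ D ∧
        γ + ∑ q' ∈ D ∪ r, S.cls q' = S.cl₀
    · refine ⟨h3.1.inj.mono ?_, ?_⟩
      · exact_mod_cast subset_union_left
      · intro q hq
        have h4 := h3.1.spl q hq
        exact ⟨h4.1, h3.1.blk q (mem_union_left _ hq) h4.1, h4.2⟩
    · rw [if_neg h3] at hD
      exact absurd rfl hD
  · rw [sum_const, card_univ, nsmul_eq_mul]

open Classical in
/-- The inner double sum for fixed `r` and `P₁`. -/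
theorem inner_eq (ψ : AddChar k ℂ) {N : B → Prop} (nspl : ∀ q, N q → ¬ S.spl q)
    (V I₀ : B → Prop)
    (hIV : ∀ q, I₀ q → ¬ V q) (u₀ : k)
    (h : Finset B → (B → ZMod p) → ℂ) (z : B → ZMod p) (e : B → k) (I i j m : ℕ)
    (t : k) (X : ℝ) (x : U) (χ : AddChar Λ ℂ) (c y : B → k) {P r : Finset B} {P₁ : B}
    (hP₁ : P₁ ∈ r) :
    ∑ D ∈ (P \ r).powerset, ∑ q ∈ P \ (D ∪ r),
      GG S ψ N V I₀ u₀ h z e I i j m t X x χ c y (insert q (D ∪ r)) q P₁ D =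
    ((p : ℂ) ^ (r.filter V).card * (Fintype.card k : ℂ) ^ (rsj S j (r.erase P₁)).card) *
      ∑ ε : k, ∑ q ∈ S.blk j with (S.spl q ∧ e q = ε), ∑ D ∈ S.mods i,
        if (q ∈ P ∧ I₀ q) ∧ Dz S N V u₀ z e I i j m t ε c y P r P₁ D ∧
            S.cls q + ∑ q' ∈ D ∪ r, S.cls q' = S.cl₀ then
          zt S ψ V u₀ h z j t X x χ c y r P₁ q D else 0 := by
  set w : ℂ := ((p : ℂ) ^ (r.filter V).card *
    (Fintype.card k : ℂ) ^ (rsj S j (r.erase P₁)).card) with hw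
  have e1 : ∑ ε : k, ∑ q ∈ S.blk j with (S.spl q ∧ e q = ε), ∑ D ∈ S.mods i,
        (if (q ∈ P ∧ I₀ q) ∧ Dz S N V u₀ z e I i j m t ε c y P r P₁ D ∧
            S.cls q + ∑ q' ∈ D ∪ r, S.cls q' = S.cl₀ then
          zt S ψ V u₀ h z j t X x χ c y r P₁ q D else 0) =
      ∑ q ∈ S.blk j with S.spl q, ∑ D ∈ S.mods i,
        (if (q ∈ P ∧ I₀ q) ∧ Dz S N V u₀ z e I i j m t (e q) c y P r P₁ D ∧
            S.cls q + ∑ q' ∈ D ∪ r, S.cls q' = S.cl₀ then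
          zt S ψ V u₀ h z j t X x χ c y r P₁ q D else 0) := by
    rw [← sum_fiberwise (S.blk j |>.filter fun q ↦ S.spl q) (fun q ↦ e q)]
    refine sum_congr rfl fun ε _ ↦ ?_
    rw [filter_filter]
    refine sum_congr rfl fun q hq ↦ ?_
    rw [(mem_filter.1 hq).2.2]
  rw [e1, sum_comm, mul_sum]
  refine sum_congr_of_eq_on_inter ?_ ?_ ?_
  · intro D hD hDi
    refine sum_eq_zero fun q _ ↦ ?_
    unfold GG
    rw [if_neg]
    rintro ⟨-, -, -, -, h, -⟩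
    exact hDi ((mem_mods S).2 h)
  · intro D _ hD
    rw [sum_eq_zero, mul_zero]
    intro q _
    rw [if_neg]
    rintro ⟨-, h, -⟩
    refine hD ?_
    rw [mem_powerset]
    exact subset_sdiff.2 ⟨h.sub, h.dis⟩
  · intro D hD _
    rw [mem_powerset, subset_sdiff] at hD
    rw [mul_sum]
    refine sum_congr_of_eq_on_inter ?_ ?_ ?_
    · intro q hq hqn
      rw [mem_sdiff] at hq
      unfold GG
      rw [if_neg]
      intro h
      have h2 := (cond_iff S nspl V u₀ z I₀ e χ hD.1 hD.2 hP₁ hq.2).1 h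
      refine hqn ?_
      rw [mem_filter, mem_blk]
      exact h2.1.1
    · intro q hq hqn
      rw [mem_filter, mem_blk] at hq
      rw [if_neg, mul_zero]
      rintro ⟨h1, h2, -⟩
      refine hqn ?_
      rw [mem_sdiff]
      exact ⟨h1.1, fun h3 ↦ h2.blk q h3 hq.2 hq.1⟩
    · intro q hq hqb
      rw [mem_sdiff] at hq
      rw [mem_filter, mem_blk] at hqb
      rw [GG_eq S ψ nspl V I₀ hIV u₀ h z e I i j m t X x χ c y hD.1 hD.2 hP₁ hq.2 hqb.1 hqb.2]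
      congr 1
      by_cases h : I₀ q ∧ Dz S N V u₀ z e I i j m t (e q) c y P r P₁ D ∧
          S.cls q + ∑ q' ∈ D ∪ r, S.cls q' = S.cl₀
      · rw [if_pos h, if_pos ⟨⟨hq.1, h.1⟩, h.2⟩]
      · rw [if_neg h, if_neg (fun h2 ↦ h ⟨h2.1.2, h2.2⟩)]

open Classical in
theorem inner_le [Finite C] (ψ : AddChar k ℂ) {N : B → Prop}
    {e : B → k} {g : ℝ → ℝ} {K : ℕ} (hyp : HypG4 S ψ e N g K) (V I₀ : B → Prop)
    (hIV : ∀ q, I₀ q → ¬ V q) (u₀ : k)
    (h : Finset B → (B → ZMod p) → ℂ) (hh : ∀ D z, ‖h D z‖ ≤ 1) (z : B → ZMod p)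
    (I i : ℕ) {j : ℕ} (hj : 1 ≤ j)
    (m : ℕ) {t : k} (ht : t ≠ 0) {X : ℝ} (hX : 0 < X) (x : U) (χ : AddChar Λ ℂ)
    (c y : B → k) (P r : Finset B) :
    ‖∑ D ∈ (P \ r).powerset, ∑ q ∈ P \ (D ∪ r), ∑ P₁ ∈ r,
      GG S ψ N V I₀ u₀ h z e I i j m t X x χ c y (insert q (D ∪ r)) q P₁ D‖ ≤
      ((Fintype.card k : ℝ) * p) ^ r.card * (Fintype.card k *
      (Nat.card C * (K * 2 ^ (i + j) * (i + 1) ^ K * (2 : ℝ) ^ (-(min i j : ℝ) / K) *
        Real.exp (-((2 : ℝ) ^ (i + j) / (2 * (X / S.nm r))))))) := by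
  set Bd : ℝ := (Nat.card C * (K * 2 ^ (i + j) * (i + 1) ^ K *
    (2 : ℝ) ^ (-(min i j : ℝ) / K) *
        Real.exp (-((2 : ℝ) ^ (i + j) / (2 * (X / S.nm r)))))) with hBd
  have hBd0 : 0 ≤ Bd := by positivity
  have hk : (1 : ℝ) ≤ Fintype.card k := by
    have : 0 < Fintype.card k := Fintype.card_pos
    exact_mod_cast this
  have hp : (1 : ℝ) ≤ p := by exact_mod_cast (Fact.out : p.Prime).one_lt.le
  have e1 : ∑ D ∈ (P \ r).powerset, ∑ q ∈ P \ (D ∪ r), ∑ P₁ ∈ r,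
      GG S ψ N V I₀ u₀ h z e I i j m t X x χ c y (insert q (D ∪ r)) q P₁ D =
      ∑ P₁ ∈ r, ∑ D ∈ (P \ r).powerset, ∑ q ∈ P \ (D ∪ r),
        GG S ψ N V I₀ u₀ h z e I i j m t X x χ c y (insert q (D ∪ r)) q P₁ D := by
    rw [sum_comm (s := r)]
    exact sum_congr rfl fun D _ ↦ sum_comm
  rw [e1]
  -- a `P₁` which is not the pivot gives `0`
  have hz : ∀ P₁ ∈ r, ¬ Piv S N r P₁ → ∑ D ∈ (P \ r).powerset, ∑ q ∈ P \ (D ∪ r),
        GG S ψ N V I₀ u₀ h z e I i j m t X x χ c y (insert q (D ∪ r)) q P₁ D = 0 := by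
    intro P₁ hP₁ hn
    refine sum_eq_zero fun D _ ↦ sum_eq_zero fun q _ ↦ ?_
    unfold GG
    rw [if_neg]
    rintro ⟨-, -, ⟨h, -, -⟩, -⟩
    exact hn ⟨hP₁, h.isN, fun P' hP' hN hne ↦
      h.top P' (mem_insert_of_mem (mem_union_right _ hP')) hN hne⟩
  by_cases hex : ∃ P₁ ∈ r, Piv S N r P₁
  · obtain ⟨P₁, hP₁, hPv⟩ := hex
    rw [sum_eq_single P₁ (fun P' hP' hne ↦ hz P' hP' fun h ↦ by
      have h1 := hPv.top P' hP' h.isN hne
      have h2 := h.top P₁ hP₁ hPv.isN hne.symm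
      omega) (fun h ↦ absurd hP₁ h),
      inner_eq S ψ hyp.nspl V I₀ hIV u₀ h z e I i j m t X x χ c y hP₁, norm_mul, norm_mul,
      norm_pow, norm_pow, Complex.norm_natCast, Complex.norm_natCast, mul_pow,
      mul_comm ((Fintype.card k : ℝ) ^ r.card)]
    refine mul_le_mul ?_ ?_ (norm_nonneg _) (by positivity)
    · refine mul_le_mul (pow_le_pow_right₀ hp (card_filter_le _ _))
        (pow_le_pow_right₀ hk ?_) (by positivity) (by positivity)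
      unfold rsj
      exact (card_filter_le _ _).trans (card_le_card (erase_subset _ _))
    · refine (norm_sum_le_of_le _ fun ε _ ↦
        bil S ψ hyp V I₀ u₀ h hh z I i hj m ht ε hX x χ c y P r P₁).trans (le_of_eq ?_)
      rw [sum_const, card_univ, nsmul_eq_mul]
  · rw [sum_eq_zero fun P₁ hP₁ ↦ hz P₁ hP₁ fun h ↦ hex ⟨P₁, hP₁, h⟩, norm_zero]
    positivity

open Classical in
theorem fixed_eq (hdec : C_DEC) (ψ : AddChar k ℂ) (N : B → Prop) (V I₀ : B → Prop) (u₀ : k)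
    (h : Finset B → (B → ZMod p) → ℂ) (z : B → ZMod p)
    (e : B → k) (I i j m : ℕ) (t : k) (X : ℝ) (x : U) (χ : AddChar Λ ℂ) (c y : B → k)
    (P : Finset B) :
    ∑ b ∈ P.powerset with S.Fam b, ∑ q ∈ b with (Wv S b q ∧ S.bl q = j ∧ I₀ q),
      ∑ P₁ ∈ b with (Piv S N b P₁ ∧ P₁ ≠ q ∧ m ≤ S.bl P₁),
        (if HB S V u₀ z e I i b q P₁ t χ c y then
          (Fintype.card k : ℂ) ^ (rs₄ S b q P₁).card *
          ph S ψ χ b x (cutd S (S.bl q) q P₁ t c) (cute S (S.bl q) q P₁ 0 0 y) *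
          (Wz S (ps ψ u₀) V h z b * (Real.exp (-(S.nm b / X)) : ℂ)) else 0) =
    ∑ r ∈ P.powerset, ∑ D ∈ (P \ r).powerset, ∑ q ∈ P \ (D ∪ r), ∑ P₁ ∈ r,
      GG S ψ N V I₀ u₀ h z e I i j m t X x χ c y (insert q (D ∪ r)) q P₁ D := by
  obtain ⟨h1, h2, -⟩ := hdec B P
  have e1 : ∑ b ∈ P.powerset with S.Fam b, ∑ q ∈ b with (Wv S b q ∧ S.bl q = j ∧ I₀ q),
      ∑ P₁ ∈ b with (Piv S N b P₁ ∧ P₁ ≠ q ∧ m ≤ S.bl P₁),
        (if HB S V u₀ z e I i b q P₁ t χ c y then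
          (Fintype.card k : ℂ) ^ (rs₄ S b q P₁).card *
          ph S ψ χ b x (cutd S (S.bl q) q P₁ t c) (cute S (S.bl q) q P₁ 0 0 y) *
          (Wz S (ps ψ u₀) V h z b * (Real.exp (-(S.nm b / X)) : ℂ)) else 0) =
      ∑ b ∈ P.powerset, ∑ q ∈ b, ∑ D ∈ (b.erase q).powerset, ∑ P₁ ∈ (b.erase q) \ D,
        GG S ψ N V I₀ u₀ h z e I i j m t X x χ c y (insert q (b.erase q)) q P₁ D := by
    rw [sum_filter]
    refine sum_congr rfl fun b _ ↦ ?_
    by_cases hF : S.Fam b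
    · rw [if_pos hF, sum_filter]
      refine sum_congr rfl fun q hq ↦ ?_
      rw [insert_erase hq]
      by_cases hW : Wv S b q ∧ S.bl q = j ∧ I₀ q
      · rw [if_pos hW, sum_filter]
        -- the sum over `D`
        have e2 : ∀ D ∈ (b.erase q).powerset, ∑ P₁ ∈ (b.erase q) \ D,
            GG S ψ N V I₀ u₀ h z e I i j m t X x χ c y b q P₁ D =
            ∑ P₁ ∈ b, GG S ψ N V I₀ u₀ h z e I i j m t X x χ c y b q P₁ D := by
          intro D _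
          refine sum_subset (sdiff_subset.trans (erase_subset _ _)) fun P₁ hP₁ hn ↦ ?_
          unfold GG
          rw [if_neg]
          rintro ⟨-, -, ⟨-, hne, -⟩, hD, -⟩
          refine hn ?_
          rw [mem_sdiff, mem_erase]
          refine ⟨⟨hne, hP₁⟩, fun h3 ↦ ?_⟩
          rw [hD] at h3
          unfold D₁z sp at h3
          rw [mem_filter, mem_filter, mem_erase] at h3
          exact h3.1.1.1 rfl
        rw [sum_congr rfl e2, sum_comm]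
        refine sum_congr rfl fun P₁ _ ↦ ?_
        by_cases hP : Piv S N b P₁ ∧ P₁ ≠ q ∧ m ≤ S.bl P₁
        · rw [if_pos hP, sum_eq_single (D₁z S V u₀ z e b q P₁ t c y)]
          · unfold GG HB
            by_cases h3 : HL S I b q P₁ χ c y ∧
                Nat.log 2 (S.nm (D₁z S V u₀ z e b q P₁ t c y)) = i
            · rw [if_pos h3, if_pos ⟨hF, hW, hP, rfl, h3.2, h3.1⟩, hW.2.1]
            · rw [if_neg h3, if_neg (fun h4 ↦ h3 ⟨h4.2.2.2.2.2, h4.2.2.2.2.1⟩)]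
          · intro D _ hne
            unfold GG
            rw [if_neg (fun h4 ↦ hne h4.2.2.2.1)]
          · intro h4
            refine absurd ?_ h4
            rw [mem_powerset]
            unfold D₁z sp
            exact (filter_subset _ _).trans ((filter_subset _ _).trans (erase_subset _ _))
        · rw [if_neg hP]
          refine (sum_eq_zero fun D _ ↦ ?_).symm
          unfold GG
          rw [if_neg (fun h4 ↦ hP h4.2.2.1)]
      · rw [if_neg hW]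
        refine (sum_eq_zero fun D _ ↦ sum_eq_zero fun P₁ _ ↦ ?_).symm
        unfold GG
        rw [if_neg (fun h4 ↦ hW h4.2.1)]
    · rw [if_neg hF]
      refine (sum_eq_zero fun q hq ↦ sum_eq_zero fun D _ ↦ sum_eq_zero fun P₁ _ ↦ ?_).symm
      unfold GG
      rw [insert_erase hq, if_neg (fun h4 ↦ hF h4.1)]
  rw [e1]
  have e2 := h1 ℂ (fun q s ↦ ∑ D ∈ s.powerset, ∑ P₁ ∈ s \ D,
    GG S ψ N V I₀ u₀ h z e I i j m t X x χ c y (insert q s) q P₁ D)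
  rw [e2]
  have e3 : ∀ s ∈ P.powerset, ∑ q ∈ P \ s, ∑ D ∈ s.powerset, ∑ P₁ ∈ s \ D,
      GG S ψ N V I₀ u₀ h z e I i j m t X x χ c y (insert q s) q P₁ D =
      ∑ D ∈ s.powerset, ∑ q ∈ P \ (D ∪ (s \ D)), ∑ P₁ ∈ s \ D,
        GG S ψ N V I₀ u₀ h z e I i j m t X x χ c y (insert q (D ∪ (s \ D))) q P₁ D := by
    intro s _
    rw [sum_comm]
    refine sum_congr rfl fun D hD ↦ ?_
    rw [union_sdiff_of_subset (mem_powerset.1 hD)]
  rw [sum_congr rfl e3]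
  exact h2 ℂ (fun D r ↦ ∑ q ∈ P \ (D ∪ r), ∑ P₁ ∈ r,
    GG S ψ N V I₀ u₀ h z e I i j m t X x χ c y (insert q (D ∪ r)) q P₁ D)

open Classical in
theorem total_le (hdec : C_DEC) [Finite C] (ψ : AddChar k ℂ)
    {N : B → Prop} {e : B → k} {g : ℝ → ℝ} {K : ℕ}
    (hyp : HypG4 S ψ e N g K) (V I₀ : B → Prop)
    (hIV : ∀ q, I₀ q → ¬ V q) (u₀ : k)
    (h : Finset B → (B → ZMod p) → ℂ) (hh : ∀ D z, ‖h D z‖ ≤ 1) (z : B → ZMod p)
    (I i : ℕ) {j : ℕ} (hj : 1 ≤ j) (m : ℕ) {t : k} (ht : t ≠ 0)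
    {X : ℝ} (hX : 0 < X) (P : Finset B) :
    ‖∑ b ∈ P.powerset with S.Fam b, ∑ q ∈ b with (Wv S b q ∧ S.bl q = j ∧ I₀ q),
      ∑ P₁ ∈ b with (Piv S N b P₁ ∧ P₁ ≠ q ∧ m ≤ S.bl P₁),
        Wz S (ps ψ u₀) V h z b * ful₄ S ψ P b q P₁ t 0 0 (HB S V u₀ z e I i b q P₁ t) *
          (Real.exp (-(S.nm b / X)) : ℂ)‖ ≤
    Fintype.card U * ∑ r ∈ P.powerset, ((Fintype.card k : ℝ) * p) ^ r.card * (Fintype.card k *
      (Nat.card C * (K * 2 ^ (i + j) * (i + 1) ^ K * (2 : ℝ) ^ (-(min i j : ℝ) / K) *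
        Real.exp (-((2 : ℝ) ^ (i + j) / (2 * (X / S.nm r))))))) := by
  set M : ℝ := ∑ r ∈ P.powerset, ((Fintype.card k : ℝ) * p) ^ r.card * (Fintype.card k *
      (Nat.card C * (K * 2 ^ (i + j) * (i + 1) ^ K * (2 : ℝ) ^ (-(min i j : ℝ) / K) *
        Real.exp (-((2 : ℝ) ^ (i + j) / (2 * (X / S.nm r))))))) with hM
  have hM0 : 0 ≤ M := by
    rw [hM]
    positivity
  set Z : Finset (U × AddChar Λ ℂ × (B → k) × (B → k)) :=
    (univ : Finset U) ×ˢ (univ : Finset (AddChar Λ ℂ)) ×ˢ (lab k P) ×ˢ (lab k P) with hZ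
  have hlab : 0 < (lab k P).card := card_pos.2 ⟨0, mem_lab.2 fun _ _ ↦ rfl⟩
  have e0 : ∀ (b : Finset B) (q P₁ : B), Wz S (ps ψ u₀) V h z b *
      ful₄ S ψ P b q P₁ t 0 0 (HB S V u₀ z e I i b q P₁ t) *
          (Real.exp (-(S.nm b / X)) : ℂ) =
      ful₄ S ψ P b q P₁ t 0 0 (HB S V u₀ z e I i b q P₁ t) *
        (Wz S (ps ψ u₀) V h z b * (Real.exp (-(S.nm b / X)) : ℂ)) := by
    intro b q P₁
    ring
  have e1 : ∑ b ∈ P.powerset with S.Fam b, ∑ q ∈ b with (Wv S b q ∧ S.bl q = j ∧ I₀ q),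
      ∑ P₁ ∈ b with (Piv S N b P₁ ∧ P₁ ≠ q ∧ m ≤ S.bl P₁),
        Wz S (ps ψ u₀) V h z b * ful₄ S ψ P b q P₁ t 0 0 (HB S V u₀ z e I i b q P₁ t) *
          (Real.exp (-(S.nm b / X)) : ℂ) =
      ∑ zz ∈ Z, (1 / (Fintype.card Λ * ((lab k P).card : ℂ) ^ 2)) *
      ∑ b ∈ P.powerset with S.Fam b, ∑ q ∈ b with (Wv S b q ∧ S.bl q = j ∧ I₀ q),
      ∑ P₁ ∈ b with (Piv S N b P₁ ∧ P₁ ≠ q ∧ m ≤ S.bl P₁),
        (if HB S V u₀ z e I i b q P₁ t zz.2.1 zz.2.2.1 zz.2.2.2 then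
          (Fintype.card k : ℂ) ^ (rs₄ S b q P₁).card *
          ph S ψ zz.2.1 b zz.1 (cutd S (S.bl q) q P₁ t zz.2.2.1)
            (cute S (S.bl q) q P₁ 0 0 zz.2.2.2) *
          (Wz S (ps ψ u₀) V h z b * (Real.exp (-(S.nm b / X)) : ℂ)) else 0) := by
    simp only [e0, ful_eq, mul_sum]
    calc _ = ∑ b ∈ P.powerset with S.Fam b, ∑ zz ∈ Z,
        ∑ q ∈ b with (Wv S b q ∧ S.bl q = j ∧ I₀ q),
        ∑ P₁ ∈ b with (Piv S N b P₁ ∧ P₁ ≠ q ∧ m ≤ S.bl P₁),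
          (1 / (Fintype.card Λ * ((lab k P).card : ℂ) ^ 2)) *
          (if HB S V u₀ z e I i b q P₁ t zz.2.1 zz.2.2.1 zz.2.2.2 then
          (Fintype.card k : ℂ) ^ (rs₄ S b q P₁).card *
          ph S ψ zz.2.1 b zz.1 (cutd S (S.bl q) q P₁ t zz.2.2.1)
            (cute S (S.bl q) q P₁ 0 0 zz.2.2.2) *
          (Wz S (ps ψ u₀) V h z b * (Real.exp (-(S.nm b / X)) : ℂ)) else 0) := by
          refine sum_congr rfl fun b _ ↦ ?_
          exact Eq.trans (sum_congr rfl fun q _ ↦ sum_comm) sum_comm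
      _ = _ := sum_comm
  rw [e1]
  refine (norm_sum_le _ _).trans ?_
  have h1 : ∀ zz ∈ Z, ‖(1 / (Fintype.card Λ * ((lab k P).card : ℂ) ^ 2)) *
      ∑ b ∈ P.powerset with S.Fam b, ∑ q ∈ b with (Wv S b q ∧ S.bl q = j ∧ I₀ q),
      ∑ P₁ ∈ b with (Piv S N b P₁ ∧ P₁ ≠ q ∧ m ≤ S.bl P₁),
        (if HB S V u₀ z e I i b q P₁ t zz.2.1 zz.2.2.1 zz.2.2.2 then
          (Fintype.card k : ℂ) ^ (rs₄ S b q P₁).card *
          ph S ψ zz.2.1 b zz.1 (cutd S (S.bl q) q P₁ t zz.2.2.1)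
            (cute S (S.bl q) q P₁ 0 0 zz.2.2.2) *
          (Wz S (ps ψ u₀) V h z b * (Real.exp (-(S.nm b / X)) : ℂ)) else 0)‖ ≤
      1 / (Fintype.card Λ * ((lab k P).card : ℝ) ^ 2) * M := by
    intro zz _
    rw [norm_mul, norm_div, norm_one, norm_mul, norm_pow, Complex.norm_natCast,
      Complex.norm_natCast]
    refine mul_le_mul_of_nonneg_left ?_ (by positivity)
    rw [fixed_eq S hdec ψ N V I₀ u₀ h z e I i j m t X zz.1 zz.2.1 zz.2.2.1 zz.2.2.2 P]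
    exact norm_sum_le_of_le _ fun r _ ↦
      inner_le S ψ hyp V I₀ hIV u₀ h hh z I i hj m ht hX zz.1 zz.2.1 zz.2.2.1 zz.2.2.2 P r
  refine (sum_le_sum h1).trans (le_of_eq ?_)
  rw [sum_const, nsmul_eq_mul]
  have h3 : Z.card = Fintype.card U * (Fintype.card Λ * ((lab k P).card * (lab k P).card)) := by
    rw [hZ, card_product, card_product, card_product, card_univ, card_univ, AddChar.card_eq]
  have h7 : (0 : ℝ) < (lab k P).card := by exact_mod_cast hlab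
  have h8 : (0 : ℝ) < Fintype.card Λ := by exact_mod_cast Fintype.card_pos
  rw [h3]
  push_cast
  field_simp

end Main

end Pool.Agent.Helper23.TH.G4B

namespace Pool.Agent.Helper23.TH

open Finset Pool.Agent.Helper17.PP Pool.Agent.Helper17.PP0 Pool.Agent.Helper17.PP2
open Pool.Agent.Helper11.M3
open Pool.Agent.Helper17.PP0.LRG (one_le_nm)
open Pool.Agent.Helper32.TH (p_le_card)

open Classical in
/-- **G4_B** (`D₁z` large, with a weight), from `C_DEC`. -/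
theorem g4_b' (hdec : C_DEC) : Pool.Agent.Helper38.TH.G4_B := by
  intro p _ B B₀ k U Λ C _ _ _ _ _ _ _ _ _ _ _ S ψ e N g K hH
  have hpk := p_le_card (p := p) (k := k)
  have hp1 : 1 ≤ p := (Fact.out : p.Prime).one_lt.le
  set n0 := Fintype.card k * p * K with hn0
  set C1 : ℕ := 4 * Fintype.card U * Fintype.card k * Nat.card C * K ^ 3 * 3 ^ n0 with hC1
  refine ⟨C1 + n0, fun V I₀ u₀ h z _ hIV hh I i j m t X P hi hj ht hX => ?_⟩
  have hX0 : 0 < X := by linarith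
  refine (G4B.total_le S hdec ψ hH V I₀ hIV u₀ h hh z I i hj m ht hX0 P).trans ?_
  set Y : ℝ := 2 * X / 2 ^ (i + j) with hY
  have hY0 : 0 < Y := by positivity
  have h2ij : (2 : ℝ) ≤ 2 ^ (i + j) := by
    calc (2 : ℝ) = 2 ^ 1 := by norm_num
      _ ≤ 2 ^ (i + j) := pow_le_pow_right₀ (by norm_num) (by omega)
  have hYX : Y ≤ X := by
    rw [hY, div_le_iff₀ (by positivity)]
    nlinarith
  set w : ℝ := (2 : ℝ) ^ (-(min i j : ℝ) / K) with hw
  have hw0 : 0 ≤ w := by positivity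
  have hQ1 : 1 ≤ Fintype.card k := Fintype.card_pos
  have hK1 : (1 : ℝ) ≤ K := by exact_mod_cast hH.one_le
  have hgX : 1 ≤ g X := hH.g_one X
  have hgY : g Y ≤ K * g X := hH.g_mono Y X hYX
  have h1 := hH.htG (fun _ => (Fintype.card k : ℝ) * p) (fun q => ⟨by positivity, by
    have h2 : (p : ℝ) ≤ Fintype.card k := by exact_mod_cast hpk
    have h3 : (0 : ℝ) ≤ Fintype.card k := Nat.cast_nonneg _
    nlinarith⟩) Y hY0 P
  simp only [prod_const] at h1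
  have h2 : ∑ q ∈ S.upto Y, ((Fintype.card k : ℝ) * p - 1) / S.N q ≤
      n0 * (1 + Real.log (lg X + 1)) := by
    have h3 := Pool.Agent.Helper35.M3.QB.upto_sumW S ψ g K hH.toHypW X Y hYX
    have h4 : ∑ q ∈ S.upto Y, ((Fintype.card k : ℝ) * p - 1) / S.N q =
        ((Fintype.card k : ℝ) * p - 1) * ∑ q ∈ S.upto Y, (1 : ℝ) / S.N q := by
      rw [mul_sum]
      exact sum_congr rfl fun q _ => by ring
    have h5 : (1 : ℝ) ≤ (Fintype.card k : ℝ) * p := by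
      have : 1 ≤ Fintype.card k * p := Nat.mul_pos hQ1 hp1
      exact_mod_cast this
    have h6 : 0 ≤ Real.log ((lg X : ℝ) + 1) := Real.log_nonneg (by
      have : (0 : ℝ) ≤ lg X := Nat.cast_nonneg _
      linarith)
    rw [h4, hn0]
    push_cast
    calc ((Fintype.card k : ℝ) * p - 1) * ∑ q ∈ S.upto Y, (1 : ℝ) / S.N q
        ≤ ((Fintype.card k : ℝ) * p - 1) * (K * (1 + Real.log (lg X + 1))) :=
          mul_le_mul_of_nonneg_left h3 (by linarith)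
      _ ≤ ((Fintype.card k : ℝ) * p) * (K * (1 + Real.log (lg X + 1))) :=
          mul_le_mul_of_nonneg_right (by linarith) (by positivity)
      _ = _ := by ring
  have hL0 : (0 : ℝ) < (lg X : ℝ) + 1 := by positivity
  have h3 : Real.exp (∑ q ∈ S.upto Y, ((Fintype.card k : ℝ) * p - 1) / S.N q) ≤
      3 ^ n0 * ((lg X : ℝ) + 2) ^ n0 := by
    calc _ ≤ Real.exp (n0 * (1 + Real.log (lg X + 1))) := Real.exp_le_exp.2 h2
      _ = (Real.exp 1 * (lg X + 1)) ^ n0 := by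
        rw [Real.exp_nat_mul, Real.exp_add, Real.exp_log hL0]
      _ ≤ (3 * ((lg X : ℝ) + 2)) ^ n0 := by
        have h4 : Real.exp 1 ≤ 3 := by
          have := Real.exp_one_lt_d9
          linarith
        refine pow_le_pow_left₀ (by positivity) ?_ _
        refine mul_le_mul h4 (by linarith) hL0.le (by norm_num)
      _ = _ := by rw [mul_pow]
  have hmin : min 1 Y ≤ 2 * min 1 (X / 2 ^ (i + j)) := by
    have h5 : Y = 2 * (X / 2 ^ (i + j)) := by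
      rw [hY]
      ring
    rw [h5]
    have h6 : 0 < X / 2 ^ (i + j) := by positivity
    rcases le_total 1 (X / 2 ^ (i + j)) with h7 | h7
    · rw [min_eq_left h7]
      exact (min_le_left _ _).trans (by norm_num)
    · rw [min_eq_right h7]
      exact min_le_right _ _
  set mm : ℝ := min 1 (X / 2 ^ (i + j)) with hmm
  have hmm0 : 0 ≤ mm := by
    rw [hmm]
    exact le_min (by norm_num) (by positivity)
  have hexp : ∀ r, Real.exp (-((2 : ℝ) ^ (i + j) / (2 * (X / S.nm r)))) =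
      Real.exp (-(S.nm r / Y)) := by
    intro r
    have hr : (0 : ℝ) < S.nm r := by exact_mod_cast one_le_nm S r
    congr 2
    rw [hY]
    field_simp
  simp only [hexp]
  -- the sum over `r`
  have h8 : ∑ r ∈ P.powerset, ((Fintype.card k : ℝ) * p) ^ r.card * (Fintype.card k *
      (Nat.card C * (K * 2 ^ (i + j) * (i + 1) ^ K * w * Real.exp (-(S.nm r / Y))))) ≤
      Nat.card C * (Fintype.card k : ℝ) * (K * 2 ^ (i + j) * (i + 1) ^ K * w) *
        (K * (Y * (2 * mm) * (K * g X)) * (3 ^ n0 * ((lg X : ℝ) + 2) ^ n0)) := by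
    have e1 : ∑ r ∈ P.powerset, ((Fintype.card k : ℝ) * p) ^ r.card * (Fintype.card k *
        (Nat.card C * (K * 2 ^ (i + j) * (i + 1) ^ K * w * Real.exp (-(S.nm r / Y))))) =
        Nat.card C * (Fintype.card k : ℝ) * (K * 2 ^ (i + j) * (i + 1) ^ K * w) *
        ∑ r ∈ P.powerset, ((Fintype.card k : ℝ) * p) ^ r.card * Real.exp (-(S.nm r / Y)) := by
      rw [mul_sum]
      exact sum_congr rfl fun r _ => by ring
    rw [e1]
    refine mul_le_mul_of_nonneg_left ?_ (by positivity)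
    refine h1.trans ?_
    have hgY0 : 0 ≤ g Y := le_trans (by norm_num) (hH.g_one Y)
    have h9 : Y * min 1 Y * g Y ≤ Y * (2 * mm) * (K * g X) := by
      have h10 : 0 ≤ min 1 Y := le_min (by norm_num) hY0.le
      gcongr
    have h11 : 0 ≤ Y * min 1 Y * g Y := by
      have h10 : 0 ≤ min 1 Y := le_min (by norm_num) hY0.le
      positivity
    refine mul_le_mul ?_ h3 (Real.exp_pos _).le ?_
    · exact mul_le_mul_of_nonneg_left h9 (by positivity)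
    · have : 0 ≤ Y * (2 * mm) * (K * g X) := h11.trans h9
      positivity
  refine (mul_le_mul_of_nonneg_left h8 (by positivity)).trans ?_
  have h12 : (2 : ℝ) ^ (i + j) * Y = 2 * X := by
    rw [hY]
    field_simp
  have h13 : (Fintype.card U : ℝ) * (Nat.card C *
      (Fintype.card k : ℝ) * (K * 2 ^ (i + j) * (i + 1) ^ K * w) *
        (K * (Y * (2 * mm) * (K * g X)) * (3 ^ n0 * ((lg X : ℝ) + 2) ^ n0))) =
      (C1 : ℝ) * ((lg X : ℝ) + 2) ^ n0 * (i + 1) ^ K * w * mm * (X * g X) := by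
    rw [hC1]
    push_cast
    linear_combination ((Fintype.card U : ℝ) * Fintype.card k * Nat.card C * K ^ 3 *
      (i + 1) ^ K * w * 2 * mm * g X * 3 ^ n0 * ((lg X : ℝ) + 2) ^ n0) * h12
  rw [h13]
  have h14 : (C1 : ℝ) ≤ ((C1 + n0 : ℕ) : ℝ) := by
    push_cast
    have : (0 : ℝ) ≤ n0 := Nat.cast_nonneg _
    linarith
  have h15 : ((lg X : ℝ) + 2) ^ n0 ≤ ((lg X : ℝ) + 2) ^ (C1 + n0) := by
    refine pow_le_pow_right₀ ?_ (by omega)
    have : (0 : ℝ) ≤ lg X := Nat.cast_nonneg _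
    linarith
  have h16 : 0 ≤ X * g X := by positivity
  gcongr

/-- **G4_B** (`D₁z` large, with a weight). -/
theorem g4_b : Pool.Agent.Helper38.TH.G4_B := g4_b' Pool.Agent.Helper22.PP.c_dec

end Pool.Agent.Helper23.TH
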