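import Pool.Agent.Helper42.TH.Goals1
import Pool.Agent.Helper23.TH.CLAaux

/-!
# Project TH (MP_fc6b1e_nt), packet T_CLA

From weighted sums in finitely many families to the number of the elements of one family.
-/

set_option autoImplicit false

namespace Pool.Agent.Helper23.TH

open Pool.Agent.Helper11.PP (Slow)
open Pool.Agent.Helper44.PP.Dabs (slow_one slow_pow)
open Pool.Agent.Helper50.ND (ncard_sig)
open Pool.Agent.Helper42.TH (CLA T_CLW T_CLA)

theorem cla (hW : CLW) : CLA := by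
  classical
  intro C hC
  obtain ⟨a, ha⟩ : ∃ a : ℕ, C ≤ 2 ^ a := by
    obtain ⟨l, hl⟩ := pow_unbounded_of_one_lt C (show (1 : ℝ) < 2 by norm_num)
    exact ⟨l, hl.le⟩
  have hWa := W_pos a
  refine ⟨Real.exp 1 * W a, by positivity, ?_⟩
  intro T _ _ β n bad exb F g K c X₁ θ C₁ δ hF hc hθ hC₁ hδ hg hup hlow hbad ι f Bd Ex Φ hΦ hcf hf
    hBd hEx hdbl hExδ η hη
  have hK := slow_one hg
  have hK0 : 0 < K := by linarith
  have hgpos : ∀ X, 0 < g X := fun X ↦ lt_of_lt_of_le one_pos (hg.one X)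
  set h : ℕ := (Set.range Φ)ᶜ.ncard with hhdef
  have hFone : ∀ τ, (1 : ℝ) ≤ F τ := fun τ ↦ by exact_mod_cast hF τ
  have hFpos : ∀ τ, (0 : ℝ) < F τ := fun τ ↦ by linarith [hFone τ]
  have hfin : ∀ τ, ∀ X : ℝ, {b : β τ | (n τ b : ℝ) ≤ X}.Finite := by
    intro τ X
    refine (hup τ (max X 1) (by positivity)).1.subset ?_
    intro b hb
    exact le_trans (show (n τ b : ℝ) ≤ X from hb) (le_max_left _ _)
  -- the disjoint union
  have hsig := fun X : ℝ => ncard_sig (fun τ => {b : β τ | (n τ b : ℝ) ≤ X / F τ})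
    (fun τ => hfin τ (X / F τ))
  have hiff : ∀ (X : ℝ) (i : ι), (f i : ℝ) ≤ X ↔
      Φ i ∈ {s : Σ τ, β τ | s.2 ∈ {b : β s.1 | (n s.1 b : ℝ) ≤ X / F s.1}} := by
    intro X i
    show (f i : ℝ) ≤ X ↔ (n (Φ i).1 (Φ i).2 : ℝ) ≤ X / F (Φ i).1
    rw [hf i, le_div_iff₀ (hFpos _)]
    push_cast
    rw [mul_comm]
  have himg : ∀ X : ℝ, Φ '' {i | (f i : ℝ) ≤ X} ⊆
      {s : Σ τ, β τ | s.2 ∈ {b : β s.1 | (n s.1 b : ℝ) ≤ X / F s.1}} := by
    rintro X _ ⟨i, hi, rfl⟩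
    exact (hiff X i).1 hi
  have hfinf : ∀ X : ℝ, {i | (f i : ℝ) ≤ X}.Finite := fun X =>
    Set.Finite.of_finite_image ((hsig X).1.subset (himg X)) hΦ.injOn
  have hleA : ∀ X : ℝ, ∑ τ, ({b : β τ | (n τ b : ℝ) ≤ X / F τ}.ncard : ℝ) ≤
      ({i | (f i : ℝ) ≤ X}.ncard : ℝ) + h := by
    intro X
    have hsub : {s : Σ τ, β τ | s.2 ∈ {b : β s.1 | (n s.1 b : ℝ) ≤ X / F s.1}} ⊆
        Φ '' {i | (f i : ℝ) ≤ X} ∪ (Set.range Φ)ᶜ := by
      intro s hs
      by_cases hr : s ∈ Set.range Φ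
      · left
        obtain ⟨i, rfl⟩ := hr
        exact ⟨i, (hiff X i).2 hs, rfl⟩
      · right
        exact hr
    have h1 := Set.ncard_le_ncard hsub (((hfinf X).image _).union hcf)
    have h2 := h1.trans (Set.ncard_union_le _ _)
    rw [Set.ncard_image_of_injective _ hΦ, (hsig X).2] at h2
    exact_mod_cast h2
  -- lower bound
  obtain ⟨τ₀⟩ := (inferInstance : Nonempty T)
  obtain ⟨l, hl⟩ : ∃ l : ℕ, (F τ₀ : ℝ) ≤ 2 ^ l := by
    obtain ⟨l, hl⟩ := pow_unbounded_of_one_lt (F τ₀ : ℝ) (show (1 : ℝ) < 2 by norm_num)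
    exact ⟨l, hl.le⟩
  have hKl : (0 : ℝ) < K ^ (l + 1) := by positivity
  have hF0 := hFpos τ₀
  set c' : ℝ := c / (2 * (F τ₀ * K ^ (l + 1))) with hc'
  have hc'pos : 0 < c' := by positivity
  set X₂ : ℝ := max (max (F τ₀ * max X₁ 1) ((h : ℝ) / c')) 1 with hX₂
  have hLOW : ∀ X : ℝ, X₂ ≤ X → c' * (X * g X) ≤ ({i | (f i : ℝ) ≤ X}.ncard : ℝ) := by
    intro X hX
    have hX1 : 1 ≤ X := le_trans (le_max_right _ _) hX
    have hX0 : 0 < X := by linarith
    have hXl : F τ₀ * max X₁ 1 ≤ X :=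
      le_trans (le_trans (le_max_left _ _) (le_max_left _ _)) hX
    have hXh : (h : ℝ) / c' ≤ X :=
      le_trans (le_trans (le_max_right _ _) (le_max_left _ _)) hX
    set Y : ℝ := X / F τ₀ with hY
    have hXY : X = F τ₀ * Y := by rw [hY]; field_simp
    have hYm : max X₁ 1 ≤ Y := by
      rw [hY, le_div_iff₀ hF0]; linarith
    have hY1 : 1 ≤ Y := le_trans (le_max_right _ _) hYm
    have hYX : X₁ ≤ Y := le_trans (le_max_left _ _) hYm
    have hYpos : 0 < Y := by linarith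
    have h1 := hlow τ₀ Y hYpos hYX
    have h2 : g X ≤ K ^ (l + 1) * g Y := by
      have h3 : X ≤ 2 ^ l * Y := by rw [hXY]; gcongr
      calc g X ≤ K * g (2 ^ l * Y) := hg.mono _ _ h3
        _ ≤ K * (K ^ l * g Y) := by
            have := slow_pow hg l Y hY1
            gcongr
        _ = K ^ (l + 1) * g Y := by ring
    have h3 : ({b : β τ₀ | (n τ₀ b : ℝ) ≤ Y}.ncard : ℝ) ≤
        ∑ τ, ({b : β τ | (n τ b : ℝ) ≤ X / F τ}.ncard : ℝ) :=
      Finset.single_le_sum (f := fun τ => ({b : β τ | (n τ b : ℝ) ≤ X / F τ}.ncard : ℝ))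
        (fun _ _ => Nat.cast_nonneg _) (Finset.mem_univ τ₀)
    have h4 := hleA X
    have h5 : 2 * c' * (X * g X) ≤ c * (Y * g Y) := by
      calc 2 * c' * (X * g X) ≤ 2 * c' * (X * (K ^ (l + 1) * g Y)) := by gcongr
        _ = c * (Y * g Y) := by
            rw [hXY, hc']
            field_simp
    have h7 : (h : ℝ) ≤ c' * (X * g X) := by
      have h8 : (h : ℝ) ≤ c' * X := by
        rw [div_le_iff₀ hc'pos] at hXh
        linarith
      have h9 : X ≤ X * g X := by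
        have := hg.one X
        nlinarith
      calc (h : ℝ) ≤ c' * X := h8
        _ ≤ c' * (X * g X) := mul_le_mul_of_nonneg_left h9 hc'pos.le
    linarith
  have hX2pos : 1 ≤ X₂ := le_max_right _ _
  have hcard : (0 : ℝ) < Fintype.card T := by
    have : 0 < Fintype.card T := Fintype.card_pos
    exact_mod_cast this
  -- growth of the counting function
  obtain ⟨N, hN⟩ : ∃ N : ℝ → ℝ, N = fun X => ({i | (f i : ℝ) ≤ X}.ncard : ℝ) := ⟨_, rfl⟩
  have hN' : ∀ X : ℝ, ({i | (f i : ℝ) ≤ X}.ncard : ℝ) = N X := fun X => by rw [hN]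
  have hN0 : ∀ X, 0 ≤ N X := fun X => by
    rw [← hN']
    exact Nat.cast_nonneg _
  have hNmono : Monotone N := by
    intro X Y hXY
    rw [← hN', ← hN']
    have h1 : {i | (f i : ℝ) ≤ X} ⊆ {i | (f i : ℝ) ≤ Y} := fun i hi =>
      le_trans (show (f i : ℝ) ≤ X from hi) hXY
    exact_mod_cast Set.ncard_le_ncard h1 (hfinf Y)
  obtain ⟨Xd, hXd0, hXd⟩ := hdbl
  simp only [hN'] at hXd hleA hLOW hExδ
  have hgrow := growth hN0 hNmono hC ha hXd0 hXd
  obtain ⟨Xe, hXe⟩ := hEx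
  obtain ⟨Xδ, hXδ⟩ := Filter.eventually_atTop.mp hExδ
  -- the elements outside the range
  obtain ⟨AC, hACdef⟩ : ∃ AC : ∀ τ, Set (β τ),
    AC = fun τ => {b | (⟨τ, b⟩ : Σ τ, β τ) ∉ Set.range Φ} := ⟨_, rfl⟩
  have hACfin : ∀ τ, (AC τ).Finite := by
    intro τ
    refine Set.Finite.of_finite_image (f := fun b => (⟨τ, b⟩ : Σ τ, β τ)) (hcf.subset ?_)
      (fun x _ y _ hxy => eq_of_heq (Sigma.mk.inj hxy).2)
    rintro _ ⟨b, hb, rfl⟩
    rw [hACdef] at hb
    exact hb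
  have hAC : ∑ τ, ((AC τ).ncard : ℝ) ≤ h := by
    have h1 := ncard_sig AC hACfin
    have h2 : {s : Σ τ, β τ | s.2 ∈ AC s.1} ⊆ (Set.range Φ)ᶜ := by
      intro s hs
      rw [hACdef] at hs
      exact hs
    have h3 := Set.ncard_le_ncard h2 hcf
    rw [h1.2] at h3
    exact_mod_cast h3
  -- the exceptional elements
  obtain ⟨AE, hAEdef⟩ : ∃ AE : ∀ τ, Set (β τ),
    AE = fun τ => {b | ∃ i ∈ Ex, Φ i = ⟨τ, b⟩} := ⟨_, rfl⟩
  have hAE : ∀ X : ℝ, ∑ τ, ({b | b ∈ AE τ ∧ (n τ b : ℝ) ≤ X / F τ}.ncard : ℝ) ≤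
      ({i | i ∈ Ex ∧ (f i : ℝ) ≤ X}.ncard : ℝ) := by
    intro X
    have h1 := ncard_sig (fun τ => {b | b ∈ AE τ ∧ (n τ b : ℝ) ≤ X / F τ})
      (fun τ => (hfin τ (X / F τ)).subset fun b hb => hb.2)
    have h2 : {s : Σ τ, β τ | s.2 ∈ {b | b ∈ AE s.1 ∧ (n s.1 b : ℝ) ≤ X / F s.1}} ⊆
        Φ '' {i | i ∈ Ex ∧ (f i : ℝ) ≤ X} := by
      rintro s ⟨hs1, hs2⟩
      rw [hAEdef] at hs1
      obtain ⟨i, hi, hi2⟩ := hs1
      have hs3 : Φ i = s := hi2
      refine ⟨i, ⟨hi, (hiff X i).2 ?_⟩, hs3⟩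
      rw [hs3]
      exact hs2
    have h3 := Set.ncard_le_ncard h2
      (((hfinf X).subset fun i hi => hi.2).image _)
    rw [Set.ncard_image_of_injective _ hΦ, h1.2] at h3
    exact_mod_cast h3
  -- constants
  have he1 := Real.exp_pos 1
  obtain ⟨D, hD⟩ : ∃ D : ℝ, D = Real.exp 1 * (C₁ + 1) * (Fintype.card T * K) := ⟨_, rfl⟩
  have hDpos : 0 < D := by
    rw [hD]
    positivity
  obtain ⟨ε, hεdef⟩ : ∃ ε : ℝ, ε = η / 2 * c' / D := ⟨_, rfl⟩
  have hεpos : 0 < ε := by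
    rw [hεdef]
    positivity
  obtain ⟨X0, hX0⟩ := hbad ε hεpos
  obtain ⟨Xm, hXm1, hXm⟩ := mid_bound hW K hK ε hεpos
  set Fm : ℝ := ∑ τ, (F τ : ℝ) with hFm
  have hFm1 : ∀ τ, (F τ : ℝ) ≤ Fm := fun τ ↦
    Finset.single_le_sum (f := fun τ ↦ (F τ : ℝ)) (fun i _ ↦ (hFpos i).le) (Finset.mem_univ τ)
  have hFm0 : 0 ≤ Fm := (hFpos τ₀).le.trans (hFm1 τ₀)
  filter_upwards [Filter.eventually_ge_atTop X₂, Filter.eventually_ge_atTop Xd,
    Filter.eventually_ge_atTop Xδ, Filter.eventually_ge_atTop ((|X0| + Xm + |Xe|) * Fm),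
    Filter.eventually_ge_atTop (Real.exp 1 * (θ * W a + C₁) * h / (η / 2 * c'))]
    with X hXX2 hXXd hXXδ hXF hXh
  have hX1 : 1 ≤ X := hX2pos.trans hXX2
  have hXpos : 0 < X := by linarith
  have hA := hLOW X hXX2
  have hYbig : ∀ τ, |X0| + Xm + |Xe| ≤ X / F τ := by
    intro τ
    rw [le_div_iff₀ (hFpos τ)]
    refine le_trans ?_ hXF
    have h1 : 0 ≤ |X0| + Xm + |Xe| := by
      have := abs_nonneg X0
      have := abs_nonneg Xe
      linarith
    exact mul_le_mul_of_nonneg_left (hFm1 τ) h1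
  have hY0 : ∀ τ, X0 ≤ X / F τ := fun τ => by
    have h1 := hYbig τ
    have h2 := le_abs_self X0
    have h3 := abs_nonneg Xe
    linarith
  have hYm : ∀ τ, Xm ≤ X / F τ := fun τ => by
    have h1 := hYbig τ
    have h2 := abs_nonneg X0
    have h3 := abs_nonneg Xe
    linarith
  have hYe : ∀ τ, Xe ≤ X / F τ := fun τ => by
    have h1 := hYbig τ
    have h2 := abs_nonneg X0
    have h3 := le_abs_self Xe
    linarith
  have hYpos : ∀ τ, 0 < X / F τ := fun τ => div_pos hXpos (hFpos τ)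
  choose G hG1 hG2 using fun τ => hX0 τ (X / F τ) (hY0 τ)
  -- (0)
  have hB : ({i | i ∈ Bd ∧ (f i : ℝ) ≤ X}.ncard : ℝ) ≤
      ∑ τ, ({b : β τ | b ∈ bad τ ∧ (n τ b : ℝ) ≤ X / F τ}.ncard : ℝ) := by
    have hs := ncard_sig (fun τ => {b : β τ | b ∈ bad τ ∧ (n τ b : ℝ) ≤ X / F τ})
      (fun τ => (hfin τ (X / F τ)).subset fun b hb => hb.2)
    have hsub : Φ '' {i | i ∈ Bd ∧ (f i : ℝ) ≤ X} ⊆
        {s : Σ τ, β τ | s.2 ∈ {b : β s.1 | b ∈ bad s.1 ∧ (n s.1 b : ℝ) ≤ X / F s.1}} := by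
      rintro _ ⟨i, hi, rfl⟩
      exact ⟨hBd i hi.1, (hiff X i).1 hi.2⟩
    have h1 := Set.ncard_le_ncard hsub hs.1
    rw [Set.ncard_image_of_injective _ hΦ, hs.2] at h1
    exact_mod_cast h1
  have hB2 : ∀ τ, ({b : β τ | b ∈ bad τ ∧ (n τ b : ℝ) ≤ X / F τ}.ncard : ℝ) ≤
      Real.exp 1 * ∑ b ∈ G τ with b ∈ bad τ, Real.exp (-(n τ b / (X / F τ))) := by
    intro τ
    have h1 : {b : β τ | b ∈ bad τ ∧ (n τ b : ℝ) ≤ X / F τ} =
        ((((G τ).filter (fun b => b ∈ bad τ)).filter (fun b => (n τ b : ℝ) ≤ X / F τ) :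
          Finset (β τ)) : Set (β τ)) := by
      ext b
      simp only [Set.mem_ofPred_eq, Finset.coe_filter, Finset.mem_filter]
      constructor
      · rintro ⟨h2, h3⟩
        exact ⟨⟨hG1 τ b h3, h2⟩, h3⟩
      · rintro ⟨⟨_, h2⟩, h3⟩
        exact ⟨h2, h3⟩
    rw [h1, Set.ncard_coe_finset, Finset.card_eq_sum_ones, Nat.cast_sum, Finset.mul_sum]
    refine le_trans (Finset.sum_le_sum (g := fun b => Real.exp 1 *
      Real.exp (-(n τ b / (X / F τ)))) fun b hb => ?_)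
      (Finset.sum_le_sum_of_subset_of_nonneg (Finset.filter_subset _ _)
        fun b _ _ => by positivity)
    have h2 := (Finset.mem_filter.mp hb).2
    rw [← Real.exp_add, Nat.cast_one]
    apply Real.one_le_exp
    have h3 : (n τ b : ℝ) / (X / F τ) ≤ 1 := (div_le_one (hYpos τ)).mpr h2
    linarith
  -- (1)
  have hk1 : ∀ k : ℕ, (1 : ℝ) ≤ (2 * ((k : ℝ) + 1)) ^ a := fun k => by
    refine one_le_pow₀ ?_
    have : (0 : ℝ) ≤ k := Nat.cast_nonneg k
    linarith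
  have hS1 : ∑ τ, ∑ b ∈ G τ, Real.exp (-(n τ b / (X / F τ))) ≤ (N X + h) * W a := by
    refine layer_sum hW n (fun _ => Set.univ) G F hF X hXpos
      (fun τ Y => (hfin τ Y).subset fun b hb => hb.2) (fun τ b _ => Set.mem_univ b) a (N X + h)
      (by have := hN0 X; positivity) (fun k => ?_)
    have h1 := hleA (((k : ℝ) + 1) * X)
    have h2 := hgrow X hXXd k
    have h3 := hk1 k
    simp only [Set.mem_univ, true_and]
    have h4 : (0 : ℝ) ≤ h := Nat.cast_nonneg h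
    calc _ ≤ _ := h1
      _ ≤ (2 * ((k : ℝ) + 1)) ^ a * N X + (2 * ((k : ℝ) + 1)) ^ a * h := by
          refine add_le_add h2 ?_
          nlinarith
      _ = _ := by ring
  -- (2)
  have hS2 : ∑ τ, ∑ b ∈ (G τ).filter (fun b => b ∈ AE τ), Real.exp (-(n τ b / (X / F τ))) ≤
      (δ * N X) * W a := by
    refine layer_sum hW n AE (fun τ => (G τ).filter (fun b => b ∈ AE τ)) F hF X hXpos
      (fun τ Y => (hfin τ Y).subset fun b hb => hb.2) (fun τ b hb => (Finset.mem_filter.mp hb).2)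
      a (δ * N X) (mul_nonneg hδ (hN0 X)) (fun k => ?_)
    have hk0 : (0 : ℝ) ≤ k := Nat.cast_nonneg k
    have h1 := hAE (((k : ℝ) + 1) * X)
    have h2 := hgrow X hXXd k
    have h3 := hXδ (((k : ℝ) + 1) * X) (hXXδ.trans (by nlinarith))
    calc _ ≤ _ := h1
      _ ≤ δ * N (((k : ℝ) + 1) * X) := h3
      _ ≤ δ * ((2 * ((k : ℝ) + 1)) ^ a * N X) := mul_le_mul_of_nonneg_left h2 hδ
      _ = _ := by ring
  have hS3 : ∀ τ, ∑ b ∈ G τ with b ∈ exb τ (X / F τ), Real.exp (-(n τ b / (X / F τ))) ≤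
      ∑ b ∈ (G τ).filter (fun b => b ∈ AE τ), Real.exp (-(n τ b / (X / F τ))) +
        (AC τ).ncard + ε * (X / F τ * g (X / F τ)) := by
    intro τ
    have h1 := hXm (β τ) (n τ) g hg (hup τ) (X / F τ) (hYm τ)
      ((G τ).filter (fun b => b ∈ exb τ (X / F τ)))
    refine h1.trans (add_le_add ?_ le_rfl)
    rw [← Finset.sum_filter_add_sum_filter_not _ (fun b => b ∈ AE τ)]
    refine add_le_add ?_ ?_
    · refine Finset.sum_le_sum_of_subset_of_nonneg ?_ fun b _ _ => (Real.exp_pos _).le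
      intro b hb
      simp only [Finset.mem_filter] at hb ⊢
      exact ⟨hb.1.1.1, hb.2⟩
    · refine (Finset.sum_le_sum (g := fun _ => (1 : ℝ)) fun b _ => ?_).trans ?_
      · rw [Real.exp_le_one_iff]
        have : 0 ≤ (n τ b : ℝ) / (X / F τ) := div_nonneg (Nat.cast_nonneg _) (hYpos τ).le
        linarith
      · rw [Finset.sum_const, nsmul_eq_mul, mul_one]
        rw [← Set.ncard_coe_finset]
        have h2 : ((((((G τ).filter (fun b => b ∈ exb τ (X / F τ))).filter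
            (fun b => √(X / F τ) ≤ n τ b ∧ (n τ b : ℝ) ≤ (X / F τ) ^ 2)).filter
              (fun b => ¬ b ∈ AE τ)) : Finset (β τ)) : Set (β τ)) ⊆ AC τ := by
          intro b hb
          have hb' := Finset.mem_coe.mp hb
          simp only [Finset.mem_filter] at hb'
          obtain ⟨⟨⟨_, h3⟩, h4, h5⟩, h6⟩ := hb'
          rw [hACdef]
          rintro ⟨i, hi⟩
          apply h6
          rw [hAEdef]
          refine ⟨i, ?_, hi⟩
          refine hXe (X / F τ) (hYe τ) i ?_ ?_ ?_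
          · rw [hi]
            exact h3
          · rw [hi]
            exact h4
          · rw [hi]
            exact h5
        exact_mod_cast Set.ncard_le_ncard h2 (hACfin τ)
  -- (3)
  have hS4 : ∑ τ, X / F τ * g (X / F τ) ≤ Fintype.card T * (X * (K * g X)) := by
    calc ∑ τ, X / F τ * g (X / F τ) ≤ ∑ _τ : T, X * (K * g X) := by
          refine Finset.sum_le_sum fun τ _ => ?_
          have h1 : X / F τ ≤ X := div_le_self hXpos.le (hFone τ)
          exact mul_le_mul h1 (hg.mono _ _ h1) (hgpos _).le hXpos.le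
      _ = _ := by rw [Finset.sum_const, nsmul_eq_mul, Finset.card_univ]
  obtain ⟨Z, hZ⟩ : ∃ Z : ℝ, Z = Fintype.card T * (X * (K * g X)) := ⟨_, rfl⟩
  rw [← hZ] at hS4
  have hSB : ∑ τ, ∑ b ∈ G τ with b ∈ exb τ (X / F τ), Real.exp (-(n τ b / (X / F τ))) ≤
      (δ * N X) * W a + h + ε * Z := by
    refine (Finset.sum_le_sum fun τ _ => hS3 τ).trans ?_
    rw [Finset.sum_add_distrib, Finset.sum_add_distrib, ← Finset.mul_sum]
    have := mul_le_mul_of_nonneg_left hS4 hεpos.le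
    linarith
  have hfinal : ({i | i ∈ Bd ∧ (f i : ℝ) ≤ X}.ncard : ℝ) ≤ Real.exp 1 *
      (θ * ((N X + h) * W a) + C₁ * ((δ * N X) * W a + h + ε * Z) + ε * Z) := by
    calc ({i | i ∈ Bd ∧ (f i : ℝ) ≤ X}.ncard : ℝ)
        ≤ ∑ τ, ({b : β τ | b ∈ bad τ ∧ (n τ b : ℝ) ≤ X / F τ}.ncard : ℝ) := hB
      _ ≤ ∑ τ, Real.exp 1 * ∑ b ∈ G τ with b ∈ bad τ, Real.exp (-(n τ b / (X / F τ))) :=
          Finset.sum_le_sum fun τ _ => hB2 τ
      _ = Real.exp 1 * ∑ τ, ∑ b ∈ G τ with b ∈ bad τ, Real.exp (-(n τ b / (X / F τ))) := by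
          rw [Finset.mul_sum]
      _ ≤ Real.exp 1 * ∑ τ, (θ * ∑ b ∈ G τ, Real.exp (-(n τ b / (X / F τ))) +
            C₁ * ∑ b ∈ G τ with b ∈ exb τ (X / F τ), Real.exp (-(n τ b / (X / F τ))) +
            ε * (X / F τ * g (X / F τ))) :=
          mul_le_mul_of_nonneg_left (Finset.sum_le_sum fun τ _ => hG2 τ) he1.le
      _ ≤ _ := by
          refine mul_le_mul_of_nonneg_left ?_ he1.le
          rw [Finset.sum_add_distrib, Finset.sum_add_distrib, ← Finset.mul_sum, ← Finset.mul_sum,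
            ← Finset.mul_sum]
          have h1 := mul_le_mul_of_nonneg_left hS1 hθ
          have h2 := mul_le_mul_of_nonneg_left hSB hC₁
          have h3 := mul_le_mul_of_nonneg_left hS4 hεpos.le
          linarith
  rw [hN']
  have hZ2 : Real.exp 1 * (C₁ + 1) * (ε * Z) = η / 2 * (c' * (X * g X)) := by
    have h1 : Real.exp 1 * (C₁ + 1) * (ε * Z) = ε * (D * (X * g X)) := by
      rw [hZ, hD]
      ring
    rw [h1, hεdef]
    field_simp
  have hh2 : Real.exp 1 * (θ * W a + C₁) * h ≤ η / 2 * (c' * (X * g X)) := by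
    have h3 : 0 < η / 2 * c' := by positivity
    rw [div_le_iff₀ h3] at hXh
    have h4 : X ≤ X * g X := by
      have := hg.one X
      nlinarith
    calc Real.exp 1 * (θ * W a + C₁) * h ≤ X * (η / 2 * c') := hXh
      _ ≤ (X * g X) * (η / 2 * c') := mul_le_mul_of_nonneg_right h4 h3.le
      _ = _ := by ring
  have h5 : η * (c' * (X * g X)) ≤ η * N X := mul_le_mul_of_nonneg_left hA hη.le
  have h6 : Real.exp 1 *
      (θ * ((N X + h) * W a) + C₁ * ((δ * N X) * W a + h + ε * Z) + ε * Z) =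
      Real.exp 1 * W a * (θ + C₁ * δ) * N X + Real.exp 1 * (θ * W a + C₁) * h +
        Real.exp 1 * (C₁ + 1) * (ε * Z) := by ring
  rw [h6, hZ2] at hfinal
  linarith

/-- The packet `T_CLA`. -/
theorem t_cla : Pool.Agent.Helper42.TH.T_CLA := fun h => cla h

end Pool.Agent.Helper23.TH
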